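import Mathlib

/-! Definitions used in the statements about Hindman's theorem for bounded sums. -/

namespace Pool.Agent.Helper81.HT

open Classical in
/-- The characteristic function of a set `A` of natural numbers, as a (total) function
`ℕ →. ℕ`; used as an oracle. -/
noncomputable def chi (A : Set ℕ) : ℕ →. ℕ := fun n => Part.some (if n ∈ A then 1 else 0)

/-- `FS^{≤n}(X)`: the set of all sums of at least one and at most `n` distinct elements
of `X`. -/
def FSle (n : ℕ) (X : Set ℕ) : Set ℕ :=
  {m | ∃ F : Finset ℕ, (F : Set ℕ) ⊆ X ∧ 1 ≤ F.card ∧ F.card ≤ n ∧ m = ∑ x ∈ F, x}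

/-- The colouring `c` is constant on `S`. -/
def Mono {k : ℕ} (c : ℕ → Fin k) (S : Set ℕ) : Prop := ∀ x ∈ S, ∀ y ∈ S, c x = c y

end Pool.Agent.Helper81.HT
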