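import Mathlib

/-! Relative computability toolkit: closure properties of `ComputableIn` for functions on `ℕ`,
and a normal form for functions recursive in the characteristic function of a set. -/

namespace Pool.Agent.Helper81.HT

open Encodable Denumerable Part

section closure

variable {O : Set (ℕ →. ℕ)}
variable {σ τ : Type*} [Primcodable σ] [Primcodable τ]

theorem cin_iff (h : ℕ → σ) :
    ComputableIn O h ↔ Nat.RecursiveIn O (fun n => Part.some (encode (h n))) := by
  unfold ComputableIn RecursiveIn
  simp

theorem cin_nat (h : ℕ → ℕ) : ComputableIn O h ↔ Nat.RecursiveIn O (h : ℕ →. ℕ) := by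
  rw [cin_iff]; rfl

theorem cin_comp {G : σ → τ} (hG : Computable G) {h : ℕ → σ} (hh : ComputableIn O h) :
    ComputableIn O (fun n => G (h n)) := by
  rw [cin_iff] at hh ⊢
  have hG' : Nat.Partrec (fun n => Part.bind (decode (α := σ) n) fun a => Part.some (encode (G a))) := by
    have := hG
    unfold Computable Partrec at this
    simpa [Part.map_some] using this
  have := Nat.RecursiveIn.comp (Nat.Partrec.recursiveIn (O := O) hG') hh
  refine this.of_eq ?_
  intro n
  simp

theorem cin_comp_nat {h : ℕ → σ} (hh : ComputableIn O h) {k : ℕ → ℕ} (hk : ComputableIn O k) :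
    ComputableIn O (fun n => h (k n)) := by
  rw [cin_iff] at hh hk ⊢
  have := Nat.RecursiveIn.comp hh hk
  refine this.of_eq ?_
  intro n
  simp

theorem cin_of_comp {h : ℕ → σ} (hh : Computable h) : ComputableIn O h := hh.computableIn

theorem cin_pair {f : ℕ → σ} {g : ℕ → τ} (hf : ComputableIn O f) (hg : ComputableIn O g) :
    ComputableIn O (fun n => (f n, g n)) := by
  rw [cin_iff] at hf hg ⊢
  have := Nat.RecursiveIn.pair hf hg
  refine this.of_eq ?_
  intro n
  simp [Seq.seq]

/-- primitive recursion without parameters -/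
theorem cin_rec {h : ℕ → σ} (a : σ) {st : ℕ → σ} (H : ℕ × σ → σ)
    (hst0 : st 0 = a) (hstS : ∀ n, st (n+1) = H (n, st n))
    (hH : ∃ G : (ℕ × σ) × ℕ → σ, ∃ q : ℕ → ℕ, Computable G ∧ ComputableIn O q ∧
      ∀ n s, H (n, s) = G ((n, s), q n)) (hh : h = st) :
    ComputableIn O h := by
  subst hh
  obtain ⟨G, q, hG, hq, hGq⟩ := hH
  rw [cin_iff] at hq ⊢
  -- step function on ℕ: pair 0 (pair y i) ↦ encode (H (y, decode i))
  have hG' : Nat.Partrec (fun n => Part.bind (decode (α := (ℕ × σ) × ℕ) n)
      fun a => Part.some (encode (G a))) := by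
    have := hG
    unfold Computable Partrec at this
    simpa [Part.map_some] using this
  -- w : ℕ, w = pair a (pair y i) ↦ pair (pair y i) (q y)
  have hw : Nat.RecursiveIn O (fun w => Part.some (Nat.pair w.unpair.2 (q w.unpair.2.unpair.1))) := by
    have h1 : Nat.RecursiveIn O (fun w : ℕ => Part.some (w.unpair.2)) := Nat.RecursiveIn.right
    have h2 : Nat.RecursiveIn O (fun w : ℕ => Part.some (w.unpair.1)) := Nat.RecursiveIn.left
    have h3 := Nat.RecursiveIn.comp h2 h1
    have h4 := Nat.RecursiveIn.comp hq h3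
    have h5 := Nat.RecursiveIn.pair h1 h4
    refine h5.of_eq ?_
    intro n
    simp [Seq.seq]
  have hstep := Nat.RecursiveIn.comp (Nat.Partrec.recursiveIn (O := O) hG') hw
  have hbase : Nat.RecursiveIn O (fun _ : ℕ => Part.some (encode a)) :=
    Nat.Primrec.recursiveIn (Nat.Primrec.const (encode a))
  have hprec := Nat.RecursiveIn.prec hbase hstep
  have harg : Nat.RecursiveIn O (fun n : ℕ => Part.some (Nat.pair 0 n)) :=
    Nat.Primrec.recursiveIn (Nat.Primrec.pair (Nat.Primrec.const 0) Nat.Primrec.id)
  have := Nat.RecursiveIn.comp hprec harg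
  refine this.of_eq ?_
  intro n
  have key : ∀ m : ℕ, (Nat.rec (Part.some (encode a))
        (fun y IH => IH.bind fun i =>
          ((decode (α := (ℕ × σ) × ℕ) (Nat.pair (Nat.unpair (Nat.pair 0 (Nat.pair y i))).2
                  (q (Nat.unpair (Nat.unpair (Nat.pair 0 (Nat.pair y i))).2).1)) :
              Option _) : Part _).bind fun a => Part.some (encode (G a)))
        m : Part ℕ) = Part.some (encode (h m)) := by
    intro m
    induction m with
    | zero => simp [hst0]
    | succ n ih =>
      have e2 : decode (α := (ℕ × σ) × ℕ) (Nat.pair (Nat.pair n (encode (h n))) (q n)) =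
          Option.some ((n, h n), q n) := by
        simp [Encodable.decode_prod_val]
      simp only at ih ⊢
      rw [ih]
      simp only [Part.bind_some, Nat.unpair_pair]
      rw [hstS, hGq, e2]
      simp
  have e1 : Nat.unpair (Nat.pair 0 n) = (0, n) := Nat.unpair_pair 0 n
  simp only [Part.bind_eq_bind, Part.bind_some]
  rw [e1]
  exact key n

theorem cin_list {f : ℕ → ℕ} (hf : ComputableIn O f) :
    ComputableIn O (fun n => (List.range n).map f) := by
  refine cin_rec (σ := List ℕ) (st := fun n => (List.range n).map f) []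
    (fun p => p.2 ++ [f p.1]) (by simp) ?_ ⟨fun p => p.1.2 ++ [p.2], f, ?_, hf, ?_⟩ rfl
  · intro n
    simp [List.range_succ]
  · exact (Primrec.list_concat.comp (Primrec.snd.comp Primrec.fst) Primrec.snd).to_comp
  · intro n s; rfl

/-- unbounded search -/
theorem cin_find {P : ℕ → ℕ → Prop} [∀ a n, Decidable (P a n)]
    (hP : ComputableIn O (fun w : ℕ => if P w.unpair.1 w.unpair.2 then 0 else 1))
    (hex : ∀ a, ∃ n, P a n) :
    ∃ h : ℕ → ℕ, ComputableIn O h ∧ ∀ a, P a (h a) := by
  refine ⟨fun a => Nat.find (hex a), ?_, fun a => Nat.find_spec (hex a)⟩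
  rw [cin_nat] at hP ⊢
  have := Nat.RecursiveIn.rfind hP
  refine this.of_eq_tot (g := fun a => Nat.find (hex a)) ?_
  intro a
  refine Nat.mem_rfind.2 ⟨?_, ?_⟩
  · simp [Nat.find_spec (hex a)]
  · intro m hm
    have := Nat.find_min (hex a) hm
    simp [this]

end closure

end Pool.Agent.Helper81.HT
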