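import Mathlib
import Pool.Agent.Helper81.HT.Defs
import Pool.Agent.Helper81.HT.RelComp

/-! Normal form for functions recursive in the characteristic function of a set. -/

namespace Pool.Agent.Helper81.HT

open Encodable Denumerable

open Classical in
/-- the list of the first `t` values of the characteristic function of `A` -/
noncomputable def upto (A : Set ℕ) (t : ℕ) : List ℕ :=
  (List.range t).map (fun i => if i ∈ A then 1 else 0)

theorem upto_length (A : Set ℕ) (t : ℕ) : (upto A t).length = t := by simp [upto]

theorem upto_get (A : Set ℕ) (t n v : ℕ) :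
    (upto A t)[n]? = some v ↔ n < t ∧ v ∈ chi A n := by
  classical
  simp only [upto, chi, List.getElem?_map]
  by_cases h : n < t
  · simp [h, eq_comm]
  · simp [h]

/-- state of the bounded search -/
def srch (q : ℕ → Option ℕ) (m : ℕ) : Option (Option ℕ) :=
  Nat.rec none (fun m st => Option.casesOn st
    (Option.casesOn (q m) (some none)
      (fun v => Nat.casesOn v (some (some m)) (fun _ => none))) (fun r => some r)) m

theorem srch_zero (q : ℕ → Option ℕ) : srch q 0 = none := rfl

theorem srch_succ (q : ℕ → Option ℕ) (m : ℕ) :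
    srch q (m+1) = Option.casesOn (srch q m)
    (Option.casesOn (q m) (some none)
      (fun v => Nat.casesOn v (some (some m)) (fun _ => none))) (fun r => some r) := rfl

theorem srch_none {q : ℕ → Option ℕ} {m : ℕ} :
    srch q m = none ↔ ∀ k < m, ∃ v, q k = some (v+1) := by
  induction m with
  | zero => simp [srch_zero]
  | succ m ih =>
    rw [srch_succ]
    cases h : srch q m with
    | none =>
      rw [h] at ih
      have ih' := ih.1 rfl
      cases hq : q m with
      | none =>
        simp only [reduceCtorEq, false_iff]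
        intro hh
        obtain ⟨v, hv⟩ := hh m (Nat.lt_succ_self m)
        rw [hq] at hv; cases hv
      | some v =>
        cases v with
        | zero =>
          simp only [reduceCtorEq, false_iff]
          intro hh
          obtain ⟨v, hv⟩ := hh m (Nat.lt_succ_self m)
          rw [hq] at hv; cases hv
        | succ v =>
          simp only [true_iff]
          intro k hk
          rcases Nat.lt_succ_iff_lt_or_eq.1 hk with h1 | h1
          · exact ih' k h1
          · subst h1; exact ⟨v, hq⟩
    | some r =>
      simp only [reduceCtorEq, false_iff]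
      intro hh
      have := ih.2 (fun k hk => hh k (Nat.lt_succ_of_lt hk))
      rw [h] at this; cases this

theorem srch_found {q : ℕ → Option ℕ} {m k : ℕ} :
    srch q m = some (some k) ↔ k < m ∧ q k = some 0 ∧ ∀ i < k, ∃ v, q i = some (v+1) := by
  induction m with
  | zero => simp [srch_zero]
  | succ m ih =>
    rw [srch_succ]
    cases h : srch q m with
    | none =>
      have h' := srch_none.1 h
      cases hq : q m with
      | none =>
        simp only [Option.some.injEq, reduceCtorEq, false_iff, not_and]
        intro hk hk0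
        rcases Nat.lt_succ_iff_lt_or_eq.1 hk with h1 | h1
        · obtain ⟨v, hv⟩ := h' k h1
          rw [hv] at hk0; simp at hk0
        · subst h1; rw [hq] at hk0; cases hk0
      | some v =>
        cases v with
        | zero =>
          show some (some m) = some (some k) ↔ _
          simp only [Option.some.injEq]
          constructor
          · rintro rfl
            exact ⟨Nat.lt_succ_self _, hq, h'⟩
          · rintro ⟨hk, hk0, hall⟩
            rcases Nat.lt_succ_iff_lt_or_eq.1 hk with h1 | h1
            · obtain ⟨v, hv⟩ := h' k h1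
              rw [hv] at hk0; simp at hk0
            · exact h1.symm
        | succ v =>
          simp only [reduceCtorEq, false_iff, not_and]
          intro hk hk0
          rcases Nat.lt_succ_iff_lt_or_eq.1 hk with h1 | h1
          · obtain ⟨v, hv⟩ := h' k h1
            rw [hv] at hk0; simp at hk0
          · subst h1; rw [hq] at hk0; simp at hk0
    | some r =>
      rw [h] at ih
      simp only
      rw [ih]
      constructor
      · rintro ⟨h1, h2⟩; exact ⟨Nat.lt_succ_of_lt h1, h2⟩
      · rintro ⟨h1, h2, h3⟩
        rcases Nat.lt_succ_iff_lt_or_eq.1 h1 with h4 | h4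
        · exact ⟨h4, h2, h3⟩
        · subst h4
          have := srch_none.2 h3
          rw [h] at this; cases this

theorem primrec_srch {F : List ℕ → ℕ → Option ℕ} (hF : Primrec₂ F) :
    Primrec₂ (fun (L : List ℕ) (a : ℕ) =>
      (srch (fun m => F L (Nat.pair a m)) L.length).bind id) := by
  have h1 : Primrec (fun p : List ℕ × ℕ => srch (fun m => F p.1 (Nat.pair p.2 m)) p.1.length) := by
    unfold srch
    refine Primrec.nat_rec' (f := fun p : List ℕ × ℕ => p.1.length) (g := fun _ => none)
      (h := fun (p : List ℕ × ℕ) (x : ℕ × Option (Option ℕ)) =>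
        Option.casesOn x.2
          (Option.casesOn (F p.1 (Nat.pair p.2 x.1)) (some none)
            (fun v => Nat.casesOn v (some (some x.1)) (fun _ => none))) (fun r => some r))
      (Primrec.list_length.comp Primrec.fst) (Primrec.const none) ?_
    have hx : Primrec (fun y : (List ℕ × ℕ) × (ℕ × Option (Option ℕ)) =>
        F y.1.1 (Nat.pair y.1.2 y.2.1)) :=
      hF.comp (Primrec.fst.comp Primrec.fst)
        (Primrec₂.natPair.comp (Primrec.snd.comp Primrec.fst) (Primrec.fst.comp Primrec.snd))
    refine Primrec.option_casesOn (o := fun y : (List ℕ × ℕ) × (ℕ × Option (Option ℕ)) => y.2.2)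
      (Primrec.snd.comp Primrec.snd) ?_ ?_
    · refine Primrec.option_casesOn hx (Primrec.const (some none)) ?_
      refine Primrec.nat_casesOn
        (α := ((List ℕ × ℕ) × (ℕ × Option (Option ℕ))) × ℕ)
        (f := fun z => z.2) (g := fun z => some (some z.1.2.1)) (h := fun _ _ => none)
        Primrec.snd ?_ ?_
      · exact Primrec.option_some.comp (Primrec.option_some.comp
          (Primrec.fst.comp (Primrec.snd.comp Primrec.fst)))
      · exact Primrec.const none
    · exact Primrec.option_some.comp Primrec.snd
  exact Primrec.option_bind h1 (Primrec.snd)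

theorem nf {A : Set ℕ} {g : ℕ →. ℕ} (hg : Nat.RecursiveIn {chi A} g) :
    ∃ F : List ℕ → ℕ → Option ℕ, Primrec₂ F ∧ (∀ t n v, F (upto A t) n = some v → v ∈ g n) ∧
    (∀ n v, v ∈ g n → ∃ t0, ∀ t ≥ t0, F (upto A t) n = some v) := by
  induction hg with
  | zero =>
    refine ⟨fun _ _ => some 0, Primrec.const _, ?_, ?_⟩
    · intro t n v h
      simp only [Option.some.injEq] at h; subst h
      exact Part.mem_some _
    · intro n v h
      have := Part.mem_some_iff.1 h
      subst this
      exact ⟨0, fun _ _ => rfl⟩
  | succ =>
    refine ⟨fun _ n => some (n+1), ?_, ?_, ?_⟩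
    · exact Primrec.option_some.comp (Primrec.succ.comp Primrec.snd)
    · intro t n v h
      simp only [Option.some.injEq] at h; subst h
      exact Part.mem_some _
    · intro n v h
      have := Part.mem_some_iff.1 h
      subst this
      exact ⟨0, fun _ _ => rfl⟩
  | left =>
    refine ⟨fun _ n => some (n.unpair.1), ?_, ?_, ?_⟩
    · exact Primrec.option_some.comp (Primrec.fst.comp (Primrec.unpair.comp Primrec.snd))
    · intro t n v h
      simp only [Option.some.injEq] at h; subst h
      exact Part.mem_some _
    · intro n v h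
      have := Part.mem_some_iff.1 h
      subst this
      exact ⟨0, fun _ _ => rfl⟩
  | right =>
    refine ⟨fun _ n => some (n.unpair.2), ?_, ?_, ?_⟩
    · exact Primrec.option_some.comp (Primrec.snd.comp (Primrec.unpair.comp Primrec.snd))
    · intro t n v h
      simp only [Option.some.injEq] at h; subst h
      exact Part.mem_some _
    · intro n v h
      have := Part.mem_some_iff.1 h
      subst this
      exact ⟨0, fun _ _ => rfl⟩
  | oracle g hg =>
    rw [Set.mem_singleton_iff] at hg
    subst hg
    refine ⟨fun L n => L[n]?, Primrec.list_getElem?, ?_, ?_⟩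
    · intro t n v h
      exact ((upto_get A t n v).1 h).2
    · intro n v h
      exact ⟨n+1, fun t ht => (upto_get A t n v).2 ⟨ht, h⟩⟩
  | @pair f h _ _ ihf ihh =>
    obtain ⟨F, hF, Fs, Fc⟩ := ihf
    obtain ⟨H, hH, Hs, Hc⟩ := ihh
    refine ⟨fun L n => (F L n).bind fun a => (H L n).map fun b => Nat.pair a b, ?_, ?_, ?_⟩
    · refine Primrec.option_bind hF ?_
      refine Primrec.option_map (hH.comp (Primrec.fst.comp Primrec.fst)
        (Primrec.snd.comp Primrec.fst)) ?_
      exact Primrec₂.natPair.comp (Primrec.snd.comp Primrec.fst) Primrec.snd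
    · intro t n v hv
      simp only [Option.bind_eq_some_iff, Option.map_eq_some_iff] at hv
      obtain ⟨a, ha, b, hb, rfl⟩ := hv
      simp only [Seq.seq, Part.map_eq_map, Part.bind_eq_bind, Part.mem_bind_iff, Part.mem_map_iff]
      exact ⟨_, ⟨a, Fs t n a ha, rfl⟩, b, Hs t n b hb, rfl⟩
    · intro n v hv
      simp only [Seq.seq, Part.map_eq_map, Part.bind_eq_bind, Part.mem_bind_iff,
        Part.mem_map_iff] at hv
      obtain ⟨_, ⟨a, ha, rfl⟩, b, hb, rfl⟩ := hv
      obtain ⟨t1, h1⟩ := Fc n a ha
      obtain ⟨t2, h2⟩ := Hc n b hb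
      refine ⟨max t1 t2, fun t ht => ?_⟩
      simp only
      rw [h1 t (le_trans (le_max_left _ _) ht), h2 t (le_trans (le_max_right _ _) ht)]
      rfl
  | @comp f h _ _ ihf ihh =>
    obtain ⟨F, hF, Fs, Fc⟩ := ihf
    obtain ⟨H, hH, Hs, Hc⟩ := ihh
    refine ⟨fun L n => (H L n).bind fun a => F L a, ?_, ?_, ?_⟩
    · refine Primrec.option_bind hH ?_
      exact hF.comp (Primrec.fst.comp Primrec.fst) Primrec.snd
    · intro t n v hv
      simp only [Option.bind_eq_some_iff] at hv
      obtain ⟨a, ha, hb⟩ := hv
      exact Part.mem_bind_iff.2 ⟨a, Hs t n a ha, Fs t a v hb⟩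
    · intro n v hv
      obtain ⟨a, ha, hb⟩ := Part.mem_bind_iff.1 hv
      obtain ⟨t1, h1⟩ := Hc n a ha
      obtain ⟨t2, h2⟩ := Fc a v hb
      refine ⟨max t1 t2, fun t ht => ?_⟩
      simp only
      rw [h1 t (le_trans (le_max_left _ _) ht)]
      exact h2 t (le_trans (le_max_right _ _) ht)
  | @prec f h _ _ ihf ihh =>
    obtain ⟨F, hF, Fs, Fc⟩ := ihf
    obtain ⟨H, hH, Hs, Hc⟩ := ihh
    refine ⟨fun L p => Nat.rec (F L p.unpair.1)
      (fun y IH => IH.bind fun i => H L (Nat.pair p.unpair.1 (Nat.pair y i))) p.unpair.2,
      ?_, ?_, ?_⟩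
    · refine Primrec.nat_rec' (f := fun q : List ℕ × ℕ => q.2.unpair.2)
        (g := fun q : List ℕ × ℕ => F q.1 q.2.unpair.1)
        (h := fun (q : List ℕ × ℕ) (x : ℕ × Option ℕ) => x.2.bind fun i =>
          H q.1 (Nat.pair q.2.unpair.1 (Nat.pair x.1 i))) ?_ ?_ ?_
      · exact Primrec.snd.comp (Primrec.unpair.comp Primrec.snd)
      · exact hF.comp Primrec.fst (Primrec.fst.comp (Primrec.unpair.comp Primrec.snd))
      · refine Primrec.option_bind (Primrec.snd.comp Primrec.snd) ?_
        refine hH.comp (Primrec.fst.comp (Primrec.fst.comp Primrec.fst)) ?_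
        refine Primrec₂.natPair.comp ?_ ?_
        · exact Primrec.fst.comp (Primrec.unpair.comp (Primrec.snd.comp
            (Primrec.fst.comp Primrec.fst)))
        · exact Primrec₂.natPair.comp (Primrec.fst.comp (Primrec.snd.comp Primrec.fst))
            Primrec.snd
    · have key : ∀ t a n v, (Nat.rec (F (upto A t) a)
          (fun y IH => IH.bind fun i => H (upto A t) (Nat.pair a (Nat.pair y i))) n :
            Option ℕ) = some v →
          v ∈ (Nat.rec (f a) (fun y IH => Part.bind IH fun i => h (Nat.pair a (Nat.pair y i)))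
            n : Part ℕ) := by
        intro t a n
        induction n with
        | zero => intro v hv; exact Fs t a v hv
        | succ n ih =>
          intro v hv
          simp only [Option.bind_eq_some_iff] at hv
          obtain ⟨i, hi, hv⟩ := hv
          exact Part.mem_bind_iff.2 ⟨i, ih i hi, Hs t _ v hv⟩
      intro t p v hv
      exact key t _ _ v hv
    · have key : ∀ a n v, 
          v ∈ (Nat.rec (f a) (fun y IH => Part.bind IH fun i => h (Nat.pair a (Nat.pair y i)))
            n : Part ℕ) → ∃ t0, ∀ t ≥ t0, (Nat.rec (F (upto A t) a)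
          (fun y IH => IH.bind fun i => H (upto A t) (Nat.pair a (Nat.pair y i))) n :
            Option ℕ) = some v := by
        intro a n
        induction n with
        | zero => intro v hv; exact Fc a v hv
        | succ n ih =>
          intro v hv
          obtain ⟨i, hi, hv⟩ := Part.mem_bind_iff.1 hv
          obtain ⟨t1, h1⟩ := ih i hi
          obtain ⟨t2, h2⟩ := Hc _ v hv
          refine ⟨max t1 t2, fun t ht => ?_⟩
          simp only
          rw [h1 t (le_trans (le_max_left _ _) ht)]
          exact h2 t (le_trans (le_max_right _ _) ht)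
      intro p v hv
      exact key _ _ v hv
  | @rfind f _ ihf =>
    obtain ⟨F, hF, Fs, Fc⟩ := ihf
    refine ⟨fun L a => (srch (fun m => F L (Nat.pair a m)) L.length).bind id,
      primrec_srch hF, ?_, ?_⟩
    · intro t a v hv
      simp only [Option.bind_eq_some_iff, id] at hv
      obtain ⟨r, hr, rfl⟩ := hv
      rw [srch_found] at hr
      obtain ⟨_, h0, hlt⟩ := hr
      refine Nat.mem_rfind.2 ⟨?_, ?_⟩
      · simp only [Part.map_eq_map, Part.mem_map_iff]
        exact ⟨0, Fs t _ 0 h0, by simp⟩
      · intro m hm
        obtain ⟨w, hw⟩ := hlt m hm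
        simp only [Part.map_eq_map, Part.mem_map_iff]
        exact ⟨w+1, Fs t _ _ hw, by simp⟩
    · intro a v hv
      obtain ⟨h0, hlt⟩ := Nat.mem_rfind.1 hv
      simp only [Part.map_eq_map, Part.mem_map_iff] at h0
      obtain ⟨w, hw, hw0⟩ := h0
      have hw0' : w = 0 := by simpa using hw0
      subst hw0'
      obtain ⟨t1, h1⟩ := Fc _ 0 hw
      have hlt' : ∀ m, m < v → ∃ w t2, ∀ t ≥ t2, F (upto A t) (Nat.pair a m) = some (w+1) := by
        intro m hm
        have := hlt hm
        simp only [Part.map_eq_map, Part.mem_map_iff] at this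
        obtain ⟨w, hw, hw0⟩ := this
        have hw1 : w ≠ 0 := by simpa using hw0
        obtain ⟨t2, h2⟩ := Fc _ w hw
        refine ⟨w - 1, t2, fun t ht => ?_⟩
        rw [h2 t ht]
        congr 1; omega
      choose! w t2 h2 using hlt'
      refine ⟨max (max t1 (v+1)) ((Finset.range v).sup t2), fun t ht => ?_⟩
      have ht1 : t1 ≤ t := le_trans (le_trans (le_max_left _ _) (le_max_left _ _)) ht
      have ht2 : v + 1 ≤ t := le_trans (le_trans (le_max_right _ _) (le_max_left _ _)) ht
      have ht3 : ∀ m < v, t2 m ≤ t := fun m hm =>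
        le_trans (le_trans (Finset.le_sup (f := t2) (Finset.mem_range.2 hm)) (le_max_right _ _)) ht
      have : srch (fun m => F (upto A t) (Nat.pair a m)) (upto A t).length = some (some v) := by
        rw [srch_found, upto_length]
        exact ⟨ht2, h1 t ht1, fun m hm => ⟨w m, h2 m hm t (ht3 m hm)⟩⟩
      simp only
      rw [this]
      rfl

end Pool.Agent.Helper81.HT
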