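import Mathlib
import Pool.Agent.Helper81.HT.NormalForm

/-! From a combinatorial coding colouring to `jump` computability. -/

namespace Pool.Agent.Helper81.HT

open Encodable Denumerable
open Nat.Partrec (Code)

/-- enumeration of the universal set, from finite information about the oracle -/
def enumF (L : List ℕ) (s : ℕ) : ℕ :=
  if (Code.evaln s.unpair.2.unpair.2 (ofNat Code s.unpair.1.unpair.1)
    (encode (L.take s.unpair.2.unpair.1, s.unpair.1.unpair.2))).getD 0 = 0
  then 0 else s.unpair.1 + 1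

theorem primrec_enumF : Primrec₂ enumF := by
  unfold enumF
  have hu : Primrec (fun p : List ℕ × ℕ => p.2.unpair) := Primrec.unpair.comp Primrec.snd
  have hx : Primrec (fun p : List ℕ × ℕ => p.2.unpair.1) := Primrec.fst.comp hu
  have hx1 : Primrec (fun p : List ℕ × ℕ => p.2.unpair.1.unpair.1) :=
    Primrec.fst.comp (Primrec.unpair.comp hx)
  have hx2 : Primrec (fun p : List ℕ × ℕ => p.2.unpair.1.unpair.2) :=
    Primrec.snd.comp (Primrec.unpair.comp hx)
  have ht : Primrec (fun p : List ℕ × ℕ => p.2.unpair.2.unpair.1) :=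
    Primrec.fst.comp (Primrec.unpair.comp (Primrec.snd.comp hu))
  have hw : Primrec (fun p : List ℕ × ℕ => p.2.unpair.2.unpair.2) :=
    Primrec.snd.comp (Primrec.unpair.comp (Primrec.snd.comp hu))
  have hE : Primrec (fun p : List ℕ × ℕ =>
      Code.evaln p.2.unpair.2.unpair.2 (ofNat Code p.2.unpair.1.unpair.1)
    (encode (p.1.take p.2.unpair.2.unpair.1, p.2.unpair.1.unpair.2))) := by
    refine Nat.Partrec.Code.primrec_evaln.comp
      (Primrec.pair (Primrec.pair hw ((Primrec.ofNat Code).comp hx1)) ?_)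
    exact Primrec.encode.comp (Primrec.pair (Primrec.list_take.comp ht Primrec.fst) hx2)
  refine Primrec.ite ?_ (Primrec.const 0) (Primrec.succ.comp hx)
  exact Primrec.eq.comp (Primrec.option_getD.comp hE (Primrec.const 0)) (Primrec.const 0)

/-- the enumeration relative to `A` -/
noncomputable def fA (A : Set ℕ) (s : ℕ) : ℕ := enumF (upto A s) s

theorem upto_take {A : Set ℕ} {s t : ℕ} (h : t ≤ s) : (upto A s).take t = upto A t := by
  unfold upto
  rw [← List.map_take, List.take_range, min_eq_left h]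

theorem fA_univ {A : Set ℕ} {g : ℕ →. ℕ} (hg : Nat.RecursiveIn {chi A} g) :
    ∃ e, ∀ n, (g n).Dom ↔ ∃ s, fA A s = Nat.pair e n + 1 := by
  obtain ⟨F, hF, Fs, Fc⟩ := nf hg
  have hF' : Nat.Partrec (fun n => ((decode (α := List ℕ × ℕ) n : Option (List ℕ × ℕ)) :
      Part (List ℕ × ℕ)).bind fun a => Part.some (encode (encode (F a.1 a.2)))) := by
    have h1 : Computable (fun a : List ℕ × ℕ => encode (F a.1 a.2)) :=
      (Primrec.encode.comp hF).to_comp
    unfold Computable Partrec at h1
    simpa [Part.map_some] using h1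
  obtain ⟨c, hc⟩ := Code.exists_code.1 hF'
  have hcv : ∀ L n, Code.eval c (encode ((L : List ℕ), (n : ℕ))) =
      Part.some (encode (F L n)) := by
    intro L n
    rw [hc]; simp
  refine ⟨encode c, fun n => ⟨?_, ?_⟩⟩
  · intro hdom
    obtain ⟨t, ht⟩ := Fc n ((g n).get hdom) (Part.get_mem hdom)
    have h1 := hcv (upto A t) n
    rw [ht t le_rfl] at h1
    have h2 : ((g n).get hdom) + 1 ∈ Code.eval c (encode (upto A t, n)) := by
      rw [h1]
      exact Part.mem_some _
    obtain ⟨w, hw⟩ := Code.evaln_complete.1 h2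
    refine ⟨Nat.pair (Nat.pair (encode c) n) (Nat.pair t w), ?_⟩
    have hts : t ≤ Nat.pair (Nat.pair (encode c) n) (Nat.pair t w) :=
      le_trans (Nat.left_le_pair t w) (Nat.right_le_pair _ _)
    unfold fA enumF
    simp only [Nat.unpair_pair, ofNat_encode]
    rw [upto_take hts]
    rw [Option.mem_def] at hw
    rw [hw]
    simp
  · rintro ⟨s, hs⟩
    unfold fA enumF at hs
    split_ifs at hs with h0
    have hx : s.unpair.1 = Nat.pair (encode c) n := by omega
    rw [hx] at h0
    simp only [Nat.unpair_pair, ofNat_encode] at h0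
    have hts : s.unpair.2.unpair.1 ≤ s :=
      le_trans (Nat.unpair_left_le _) (Nat.unpair_right_le _)
    rw [upto_take hts] at h0
    rcases hv : Code.evaln s.unpair.2.unpair.2 c (encode (upto A s.unpair.2.unpair.1, n)) with
      _ | r
    · rw [hv] at h0; simp at h0
    · rw [hv] at h0
      have hr : r ≠ 0 := by simpa using h0
      have h3 := Code.evaln_sound (Option.mem_def.2 hv)
      rw [hcv] at h3
      have h4 := Part.mem_some_iff.1 h3
      rcases hF4 : F (upto A s.unpair.2.unpair.1) n with _ | v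
      · rw [hF4] at h4; simp at h4; exact absurd h4 hr
      · exact (Part.dom_iff_mem.2 ⟨v, Fs _ _ _ hF4⟩)

theorem cin_chi (A : Set ℕ) {O : Set (ℕ →. ℕ)} (h : chi A ∈ O) [∀ i, Decidable (i ∈ A)] :
    ComputableIn O (fun i => if i ∈ A then 1 else 0) := by
  classical
  rw [cin_nat]
  refine (Nat.RecursiveIn.oracle (chi A) h).of_eq ?_
  intro n
  unfold chi
  by_cases hn : n ∈ A
  · simp [hn]
  · simp [hn]

theorem cin_upto (A : Set ℕ) {O : Set (ℕ →. ℕ)} (h : chi A ∈ O) :
    ComputableIn O (upto A) := by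
  classical
  have := cin_list (cin_chi A h)
  unfold upto
  exact this

theorem cin_fA (A : Set ℕ) {O : Set (ℕ →. ℕ)} (h : chi A ∈ O) : ComputableIn O (fA A) := by
  have h1 := cin_pair (cin_upto A h) (cin_of_comp (O := O) Computable.id)
  have h2 := cin_comp (G := fun p : List ℕ × ℕ => enumF p.1 p.2)
    (Primrec.to_comp primrec_enumF) h1
  have h3 : (fun n => enumF (upto A n) (id n)) = fA A := by
    funext n; simp only [id, fA]
  rw [← h3]
  exact h2

theorem primrec_pow : Primrec₂ ((· ^ ·) : ℕ → ℕ → ℕ) :=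
  Primrec₂.unpaired'.1 Nat.Primrec.pow

theorem reduction {k n : ℕ} (C : (ℕ → ℕ) → ℕ → Fin k) (C₀ : List ℕ → ℕ → Fin k)
    (hC₀ : Primrec₂ C₀)
    (hC : ∀ f m, C f m = C₀ ((List.range (m+1)).map f) m)
    (core1 : ∀ (f : ℕ → ℕ) (X : Set ℕ), X.Infinite → Mono (C f) (FSle n X) →
      ∀ e, ∃ x ∈ X, 0 < x ∧ 2^(2*e+2) ∣ x)
    (core2 : ∀ (f : ℕ → ℕ) (X : Set ℕ), X.Infinite → Mono (C f) (FSle n X) →
      ∀ e, ∀ x ∈ X, 0 < x → 2^(2*e+2) ∣ x → ∀ s, f s = e → ∃ s' < 3*x, f s' = e)
    (A : Set ℕ) :
    ∃ c : ℕ → Fin k, ComputableIn {chi A} c ∧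
      ∀ X : Set ℕ, X.Infinite → Mono c (FSle n X) →
        ∀ g : ℕ →. ℕ, RecursiveIn {chi A} g → RecursiveIn {chi A, chi X} (chi {n | (g n).Dom}) := by
  classical
  refine ⟨C (fA A), ?_, ?_⟩
  · have hf : ComputableIn {chi A} (fA A) := cin_fA A (Set.mem_singleton _)
    have h1 := cin_comp_nat (cin_list hf) (cin_of_comp (O := {chi A}) Computable.succ)
    have h2 := cin_pair h1 (cin_of_comp (O := {chi A}) Computable.id)
    have h3 := cin_comp (G := fun p : List ℕ × ℕ => C₀ p.1 p.2) hC₀.to_comp h2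
    have : (fun m => C (fA A) m) = fun m => C₀ ((List.range (Nat.succ m)).map (fA A)) (id m) := by
      funext m; exact hC _ _
    rw [← this] at h3
    exact h3
  · intro X hX hmono g hg
    rw [RecursiveIn.iff_nat] at hg
    obtain ⟨e, he⟩ := fA_univ hg
    set O : Set (ℕ →. ℕ) := {chi A, chi X} with hO
    have hAO : chi A ∈ O := by simp [hO]
    have hXO : chi X ∈ O := by simp [hO]
    -- search for an element of X
    have hex := core1 (fA A) X hX hmono
    have hex' : ∀ a, ∃ m, m ∈ X ∧ 0 < m ∧ 2^(2*a+2) ∣ m := by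
      intro a; obtain ⟨x, hx, h0, hd⟩ := hex a; exact ⟨x, hx, h0, hd⟩
    have hP : ComputableIn O (fun w : ℕ =>
        if (w.unpair.2 ∈ X ∧ 0 < w.unpair.2 ∧ 2^(2*w.unpair.1+2) ∣ w.unpair.2) then 0 else 1) := by
      have h1 : ComputableIn O (fun w : ℕ => (w, if w.unpair.2 ∈ X then 1 else 0)) :=
        cin_pair (cin_of_comp (O := O) Computable.id)
          (cin_comp_nat (cin_chi X hXO)
            (cin_of_comp (Primrec.snd.comp Primrec.unpair).to_comp))
      have h2 : Primrec (fun p : ℕ × ℕ => if (p.2 = 1 ∧ 0 < p.1.unpair.2 ∧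
          p.1.unpair.2 % 2^(2*p.1.unpair.1+2) = 0) then 0 else 1) := by
        refine Primrec.ite ?_ (Primrec.const 0) (Primrec.const 1)
        have hu : Primrec (fun p : ℕ × ℕ => p.1.unpair) := Primrec.unpair.comp Primrec.fst
        refine PrimrecPred.and (Primrec.eq.comp Primrec.snd (Primrec.const 1)) ?_
        refine PrimrecPred.and (Primrec.nat_lt.comp (Primrec.const 0) (Primrec.snd.comp hu)) ?_
        refine Primrec.eq.comp (Primrec.nat_mod.comp (Primrec.snd.comp hu) ?_) (Primrec.const 0)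
        refine primrec_pow.comp (Primrec.const 2) ?_
        exact Primrec.nat_add.comp (Primrec.nat_mul.comp (Primrec.const 2)
          (Primrec.fst.comp hu)) (Primrec.const 2)
      have h3 := cin_comp h2.to_comp h1
      convert h3 using 2 with w
      by_cases hw : w.unpair.2 ∈ X
      · simp [hw, Nat.dvd_iff_mod_eq_zero]
      · simp [hw]
    obtain ⟨h, hh, hhP⟩ := cin_find (P := fun a m => m ∈ X ∧ 0 < m ∧ 2^(2*a+2) ∣ m) hP hex'
    -- the decision procedure
    have hy : ComputableIn O (fun m : ℕ => Nat.pair e m + 1) :=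
      cin_of_comp (Primrec.succ.comp (Primrec₂.natPair.comp (Primrec.const e)
        Primrec.id)).to_comp
    have hL : ComputableIn O (fun m : ℕ => (List.range (3 * h (Nat.pair e m + 1))).map (fA A)) := by
      refine cin_comp_nat (h := fun m => (List.range m).map (fA A)) (cin_list (cin_fA A hAO)) ?_
      exact cin_comp (G := fun z : ℕ => 3 * z)
        (Primrec.nat_mul.comp (Primrec.const 3) Primrec.id).to_comp (cin_comp_nat hh hy)
    have hdec : Primrec (fun p : List ℕ × ℕ => if (∃ a ∈ p.1, a = p.2) then 1 else 0) := by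
      refine Primrec.ite ?_ (Primrec.const 1) (Primrec.const 0)
      exact (PrimrecRel.exists_mem_list (R := fun a b : ℕ => a = b) Primrec.eq).comp
        Primrec.fst Primrec.snd
    have hfin := cin_comp hdec.to_comp (cin_pair hL hy)
    rw [cin_nat] at hfin
    rw [RecursiveIn.iff_nat]
    refine hfin.of_eq ?_
    intro m
    show Part.some _ = Part.some _
    congr 1
    have : (∃ a ∈ (List.range (3 * h (Nat.pair e m + 1))).map (fA A), a = Nat.pair e m + 1) ↔
        m ∈ {n | (g n).Dom} := by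
      simp only [Set.mem_ofPred_eq, he m]
      constructor
      · rintro ⟨a, ha, rfl⟩
        obtain ⟨s, _, hs⟩ := List.mem_map.1 ha
        exact ⟨s, hs⟩
      · rintro ⟨s, hs⟩
        obtain ⟨h1, h2, h3⟩ := hhP (Nat.pair e m + 1)
        obtain ⟨s', hs', hs2⟩ := core2 (fA A) X hX hmono _ _ h1 h2 h3 s hs
        exact ⟨_, List.mem_map.2 ⟨s', List.mem_range.2 hs', hs2⟩, rfl⟩
    exact if_congr this rfl rfl

end Pool.Agent.Helper81.HT
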