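import Mathlib
import Pool.Agent.Helper81.HT.Reduce

/-! Two-adic valuation, first occurrences, primitive recursive bounded quantifiers. -/

namespace Pool.Agent.Helper81.HT

/-- the exponent of two in `n` -/
def vv (n : ℕ) : ℕ := Nat.findGreatest (fun k => 2^k ∣ n) n

/-- the odd part of `n` -/
def od (n : ℕ) : ℕ := n / 2^(vv n)

theorem vv_spec (n : ℕ) (_hn : 0 < n) : 2^(vv n) ∣ n := by
  have := Nat.findGreatest_spec (P := fun k => 2^k ∣ n) (m := 0) (n := n) (Nat.zero_le _)
    (by simp)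
  exact this

theorem vv_eq {k b n : ℕ} (hb : b % 2 = 1) (hn : n = 2^k * b) : vv n = k := by
  have hb0 : 0 < b := by omega
  have hn0 : 0 < n := by rw [hn]; positivity
  have hkn : k ≤ n := by
    have : k < 2^k := Nat.lt_two_pow_self
    have : 2^k ≤ n := by rw [hn]; exact Nat.le_mul_of_pos_right _ hb0
    omega
  have h1 : k ≤ vv n := Nat.le_findGreatest hkn (by rw [hn]; exact Dvd.intro _ rfl)
  by_contra hne
  have h2 : k + 1 ≤ vv n := by omega
  have h3 : 2^(k+1) ∣ n := dvd_trans (pow_dvd_pow 2 h2) (vv_spec n hn0)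
  rw [hn, pow_succ] at h3
  have h4 : 2 ∣ b := Nat.dvd_of_mul_dvd_mul_left (by positivity) h3
  omega

theorem od_eq {k b n : ℕ} (hb : b % 2 = 1) (hn : n = 2^k * b) : od n = b := by
  unfold od
  rw [vv_eq hb hn, hn]
  exact Nat.mul_div_cancel_left _ (by positivity)

theorem od_spec {n : ℕ} (hn : 0 < n) : n = 2^(vv n) * od n ∧ od n % 2 = 1 := by
  obtain ⟨b, hb⟩ := vv_spec n hn
  have h2 : od n = b := by
    unfold od
    rw [Nat.div_eq_iff_eq_mul_right (by positivity) (vv_spec n hn)]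
    exact hb
  rw [h2]
  refine ⟨hb, ?_⟩
  by_contra hodd
  have hev : 2 ∣ b := by omega
  obtain ⟨b', rfl⟩ := hev
  have h3 : 2^(vv n + 1) ∣ n := ⟨b', by rw [pow_succ]; linarith⟩
  have hle : vv n + 1 ≤ n := by
    have h4 : 2^(vv n + 1) ≤ n := Nat.le_of_dvd hn h3
    have : vv n + 1 < 2^(vv n + 1) := Nat.lt_two_pow_self
    omega
  have := Nat.le_findGreatest (P := fun k => 2^k ∣ n) hle h3
  change vv n + 1 ≤ vv n at this
  omega

theorem le_vv {n k : ℕ} (hn : 0 < n) : k ≤ vv n ↔ 2^k ∣ n := by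
  constructor
  · intro h; exact dvd_trans (pow_dvd_pow 2 h) (vv_spec n hn)
  · intro h
    refine Nat.le_findGreatest ?_ h
    have h4 : 2^k ≤ n := Nat.le_of_dvd hn h
    have : k < 2^k := Nat.lt_two_pow_self
    omega

/-- `τ` is the first stage at which its value is enumerated, and that value is below `i` -/
def tt (f : ℕ → ℕ) (i τ : ℕ) : Prop := f τ < i ∧ ∀ τ' < τ, f τ' ≠ f τ

theorem tt_mono {f : ℕ → ℕ} {i j τ : ℕ} (h : i ≤ j) (ht : tt f i τ) : tt f j τ :=
  ⟨lt_of_lt_of_le ht.1 h, ht.2⟩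

theorem tt_bdd (f : ℕ → ℕ) (i : ℕ) : ∃ S, ∀ τ, tt f i τ → τ < S := by
  have hfin : {τ | tt f i τ}.Finite := by
    refine Set.Finite.of_injOn (f := f) (t := Set.Iio i) ?_ ?_ (Set.finite_Iio i)
    · intro τ hτ; exact hτ.1
    · intro τ hτ τ' hτ' h
      rcases lt_trichotomy τ τ' with h1 | h1 | h1
      · exact absurd h (hτ'.2 τ h1)
      · exact h1
      · exact absurd h.symm (hτ.2 τ' h1)
  obtain ⟨S, hS⟩ := hfin.bddAbove
  exact ⟨S+1, fun τ hτ => Nat.lt_succ_of_le (hS hτ)⟩

theorem tt_uniq {f : ℕ → ℕ} {i τ τ' : ℕ} (h : tt f (i+1) τ) (h' : tt f (i+1) τ')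
    (hn : ¬ tt f i τ) (hn' : ¬ tt f i τ') : τ = τ' := by
  have h1 : f τ = i := by
    have := h.1
    by_contra hc
    exact hn ⟨by omega, h.2⟩
  have h2 : f τ' = i := by
    have := h'.1
    by_contra hc
    exact hn' ⟨by omega, h'.2⟩
  rcases lt_trichotomy τ τ' with h3 | h3 | h3
  · exact absurd (h1.trans h2.symm) (h'.2 τ h3)
  · exact h3
  · exact absurd (h2.trans h1.symm) (h.2 τ' h3)

theorem tt_find {f : ℕ → ℕ} {e s : ℕ} (h : f s = e) : ∃ s', f s' = e ∧ ∀ τ < s', f τ ≠ f s' := by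
  classical
  have hex : ∃ s, f s = e := ⟨s, h⟩
  refine ⟨Nat.find hex, Nat.find_spec hex, fun τ hτ => ?_⟩
  rw [Nat.find_spec hex]
  exact Nat.find_min hex hτ

/-- the list version of `tt` -/
def ttL (L : List ℕ) (i τ : ℕ) : Prop :=
  L.getD τ 0 < i ∧ ∀ τ' < τ, L.getD τ' 0 ≠ L.getD τ 0

theorem ttL_iff {f : ℕ → ℕ} {m i τ : ℕ} (h : τ ≤ m) :
    ttL ((List.range (m+1)).map f) i τ ↔ tt f i τ := by
  have hg : ∀ j ≤ m, ((List.range (m+1)).map f).getD j 0 = f j := by
    intro j hj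
    rw [List.getD_eq_getElem?_getD, List.getElem?_map, List.getElem?_range (by omega)]
    rfl
  unfold ttL tt
  rw [hg τ h]
  constructor
  · rintro ⟨h1, h2⟩
    refine ⟨h1, fun τ' h' => ?_⟩
    have := h2 τ' h'
    rwa [hg τ' (by omega)] at this
  · rintro ⟨h1, h2⟩
    refine ⟨h1, fun τ' h' => ?_⟩
    rw [hg τ' (by omega)]
    exact h2 τ' h'

section primrec

variable {α : Type*} [Primcodable α]

theorem pr_exists {p : α → ℕ → Prop} {f : α → ℕ} (hf : Primrec f) (hp : PrimrecRel p) :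
    PrimrecPred (fun a => ∃ x < f a, p a x) :=
  ((PrimrecRel.exists_mem_list (R := fun (x : ℕ) (a : α) => p a x) hp.swap).comp
    (Primrec.list_range.comp hf) Primrec.id).of_eq (by simp)

theorem pr_forall {p : α → ℕ → Prop} {f : α → ℕ} (hf : Primrec f) (hp : PrimrecRel p) :
    PrimrecPred (fun a => ∀ x < f a, p a x) :=
  ((PrimrecRel.forall_mem_list (R := fun (x : ℕ) (a : α) => p a x) hp.swap).comp
    (Primrec.list_range.comp hf) Primrec.id).of_eq (by simp)

open Classical in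
theorem pr_count {p : α → ℕ → Prop} {f : α → ℕ} (hf : Primrec f) (hp : PrimrecRel p) :
    Primrec (fun a => ((Finset.range (f a)).filter (fun x => p a x)).card) := by
  have h1 := (PrimrecRel.listFilter (R := fun (x : ℕ) (a : α) => p a x) hp.swap).comp
    (Primrec.list_range.comp hf) Primrec.id
  have h2 := Primrec.list_length.comp h1
  refine h2.of_eq ?_
  intro a
  simp only [id]
  rw [← Nat.count_eq_card_filter_range, Nat.count, List.countP_eq_length_filter]

theorem pr_pow {f g : α → ℕ} (hf : Primrec f) (hg : Primrec g) :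
    Primrec (fun a => f a ^ g a) := primrec_pow.comp hf hg

theorem pr_vv : Primrec vv := by
  unfold vv
  refine Primrec.nat_findGreatest (f := fun n => n) (p := fun n k => 2^k ∣ n) Primrec.id ?_
  have : PrimrecRel (fun n k : ℕ => n % 2^k = 0) :=
    Primrec.eq.comp (Primrec.nat_mod.comp Primrec.fst
      (pr_pow (Primrec.const 2) Primrec.snd)) (Primrec.const 0)
  exact this.of_eq (fun n k => (Nat.dvd_iff_mod_eq_zero).symm)

theorem pr_od : Primrec od :=
  Primrec.nat_div.comp Primrec.id (pr_pow (Primrec.const 2) pr_vv)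

theorem pr_ttL {L : α → List ℕ} {i τ : α → ℕ} (hL : Primrec L) (hi : Primrec i)
    (hτ : Primrec τ) : PrimrecPred (fun a => ttL (L a) (i a) (τ a)) := by
  unfold ttL
  refine PrimrecPred.and ?_ ?_
  · exact Primrec.nat_lt.comp ((Primrec.list_getD 0).comp hL hτ) hi
  · refine pr_forall hτ (p := fun a x => (L a).getD x 0 ≠ (L a).getD (τ a) 0) ?_
    refine PrimrecPred.not ?_
    exact Primrec.eq.comp ((Primrec.list_getD 0).comp (hL.comp Primrec.fst) Primrec.snd)
      ((Primrec.list_getD 0).comp (hL.comp Primrec.fst) (hτ.comp Primrec.fst))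

theorem pr_testBit {b e : α → ℕ} (hb : Primrec b) (he : Primrec e) :
    PrimrecPred (fun a => (b a).testBit (e a) = true) := by
  have : PrimrecPred (fun a => b a / 2^(e a) % 2 = 1) :=
    Primrec.eq.comp (Primrec.nat_mod.comp (Primrec.nat_div.comp hb
      (pr_pow (Primrec.const 2) he)) (Primrec.const 2)) (Primrec.const 1)
  refine this.of_eq ?_
  intro a
  rw [Nat.testBit_eq_decide_div_mod_eq]
  simp

end primrec

end Pool.Agent.Helper81.HT
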