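import Mathlib

/-! Arithmetic of powers of three modulo powers of two. -/

namespace Pool.Agent.Helper81.HT

/-- the exponent of two in `β ^ 2 - 1` is exactly `m` (for odd `β`, `m ≥ 1`) -/
def KK (m β : ℕ) : Prop := β * β % 2^(m+1) = 2^m + 1

theorem pow9 (j : ℕ) : ∃ u : ℕ, 9^(2^j) = 1 + 2^(j+3) + 2^(j+4) * u := by
  induction j with
  | zero => exact ⟨0, by norm_num⟩
  | succ j ih =>
    obtain ⟨u, hu⟩ := ih
    refine ⟨u + 2^(j+1) * (1 + 2*u)^2, ?_⟩
    rw [pow_succ 2 j, pow_mul, hu]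
    have h1 : (2:ℕ)^(j+4) = 2 * 2^(j+3) := by ring
    have h3 : (2:ℕ)^(j+1+4) = 4 * 2^(j+3) := by ring
    have h4 : (2:ℕ)^(j+3) = 8 * 2^j := by ring
    rw [h1, h3]
    have h5 : (2:ℕ)^(j+3) * 2^(j+3) = 2^(j+3) * (8 * 2^j) := by rw [← h4]
    generalize (2:ℕ)^(j+3) = P at *
    generalize (2:ℕ)^j = R at *
    have h6 : (1 + P + 2 * P * u)^2 = 1 + 2 * P * (1 + 2*u) + (P * P) * (1 + 2*u)^2 := by ring
    rw [h6, h5]
    ring

theorem gen9 (n : ℕ) : ∀ x y : ℤ, x % 8 = 1 → y % 8 = 1 →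
    ∃ k : ℕ, k < 2^n ∧ (2:ℤ)^(n+3) ∣ 9^k * x - y := by
  induction n with
  | zero =>
    intro x y hx hy
    refine ⟨0, by norm_num, ?_⟩
    norm_num
    omega
  | succ n ih =>
    intro x y hx hy
    obtain ⟨k, hk, w, hw⟩ := ih x y hx hy
    rcases Int.even_or_odd w with ⟨v, hv⟩ | ⟨v, hv⟩
    · refine ⟨k, ?_, v, ?_⟩
      · rw [pow_succ]; omega
      · rw [hw, hv]; ring
    · obtain ⟨u, hu⟩ := pow9 n
      have hu' : (9:ℤ)^(2^n) = 1 + 2^(n+3) + 2^(n+4) * u := by exact_mod_cast hu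
      -- z = 9^k x is odd
      have hz : Odd (9^k * x) := by
        refine Odd.mul (Odd.pow (by decide)) ?_
        rw [Int.odd_iff]; omega
      obtain ⟨z', hz'⟩ := hz
      refine ⟨k + 2^n, ?_, v + z' + 1 + u * (9^k * x), ?_⟩
      · rw [pow_succ]; omega
      · have h1 : (9:ℤ)^(k + 2^n) * x = (9^k * x) * 9^(2^n) := by rw [pow_add]; ring
        have h2 : y = 9^k * x - 2^(n+3) * w := by linarith
        rw [h1, hu', h2, hv]
        have h3 : (2:ℤ)^(n+4) = 2 * 2^(n+3) := by ring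
        rw [h3]
        generalize (2:ℤ)^(n+3) = P at *
        generalize (9:ℤ)^k * x = z at *
        subst hz'
        ring

theorem sq_mod8 {β : ℕ} (h : β % 2 = 1) : β * β % 8 = 1 := by
  have : β % 8 = 1 ∨ β % 8 = 3 ∨ β % 8 = 5 ∨ β % 8 = 7 := by omega
  rcases this with h | h | h | h <;> rw [Nat.mul_mod, h]

theorem hit {β m : ℕ} (h : β % 2 = 1) (hm : 3 ≤ m) : ∃ k < 2^(m-2), KK m (3^k * β) := by
  have h1 : ((β:ℤ) * β) % 8 = 1 := by exact_mod_cast sq_mod8 h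
  obtain ⟨q, rfl⟩ : ∃ q, m = q + 3 := ⟨m - 3, by omega⟩
  have h2 : ((2:ℤ)^(q+3) + 1) % 8 = 1 := by
    have : (2:ℤ)^(q+3) = 8 * 2^q := by ring
    rw [this]; omega
  obtain ⟨k, hk, hdvd⟩ := gen9 (q+1) _ _ h1 h2
  refine ⟨k, ?_, ?_⟩
  · have : q + 3 - 2 = q + 1 := by omega
    rw [this]; exact hk
  · unfold KK
    have h3 : (3^k * β) * (3^k * β) = 9^k * (β * β) := by
      have : (9:ℕ)^k = 3^k * 3^k := by rw [← mul_pow]; norm_num
      rw [this]; ring
    rw [h3]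
    have h4 : (9^k * (β * β)) % 2^(q+3+1) = (2^(q+3) + 1) % 2^(q+3+1) := by
      have h5 : ((9^k * (β * β) : ℕ) : ℤ) ≡ ((2^(q+3) + 1 : ℕ) : ℤ) [ZMOD ((2^(q+3+1) : ℕ) : ℤ)] := by
        apply Int.ModEq.symm
        rw [Int.modEq_iff_dvd]
        push_cast
        have : q + 1 + 3 = q + 3 + 1 := by omega
        rw [this] at hdvd
        exact hdvd
      exact (Int.natCast_modEq_iff.1 h5)
    rw [h4]
    apply Nat.mod_eq_of_lt
    have : (2:ℕ)^(q+3+1) = 2 * 2^(q+3) := by ring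
    have h6 : 1 < 2^(q+3) := Nat.one_lt_two_pow (by omega)
    omega

theorem KK_congr {m β β' : ℕ} (h : β % 2^(m+1) = β' % 2^(m+1)) : KK m β ↔ KK m β' := by
  unfold KK
  rw [Nat.mul_mod, h, ← Nat.mul_mod]

theorem KK_16 {m β : ℕ} (hm : 4 ≤ m) (h : KK m β) : β * β % 16 = 1 := by
  unfold KK at h
  obtain ⟨q, rfl⟩ : ∃ q, m = q + 4 := ⟨m - 4, by omega⟩
  have h1 : β * β % 16 = (β * β % 2^(q+4+1)) % 16 := by
    rw [Nat.mod_mod_of_dvd]
    exact ⟨2^(q+1), by ring⟩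
  rw [h1, h]
  have : 2^(q+4) = 16 * 2^q := by ring
  rw [this]; omega

theorem KK_three {m m' β : ℕ} (hm : 4 ≤ m) (hm' : 4 ≤ m') (h : KK m β) : ¬ KK m' (3 * β) := by
  intro h'
  have h1 := KK_16 hm h
  have h2 := KK_16 hm' h'
  have h3 : 3 * β * (3 * β) = 9 * (β * β) := by ring
  rw [h3] at h2
  omega

theorem KK_lt {m m' β : ℕ} (hlt : m < m') (h : KK m β) : ¬ KK m' β := by
  intro h'
  unfold KK at h h'
  obtain ⟨q, rfl⟩ : ∃ q, m' = m + 1 + q := ⟨m' - (m+1), by omega⟩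
  have h1 : β * β % 2^(m+1) = (β * β % 2^(m+1+q+1)) % 2^(m+1) := by
    rw [Nat.mod_mod_of_dvd]
    exact ⟨2^(q+1), by ring⟩
  rw [h1, h'] at h
  have h2 : 2^(m+1+q) = 2^(m+1) * 2^q := by ring
  rw [h2, Nat.mul_add_mod] at h
  have h3 : 1 % 2^(m+1) = 1 := Nat.mod_eq_of_lt (Nat.one_lt_two_pow (by omega))
  have h4 : 0 < 2^m := by positivity
  omega

theorem KK_uniq {m m' β : ℕ} (h : KK m β) (h' : KK m' β) : m = m' := by
  rcases lt_trichotomy m m' with h1 | h1 | h1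
  · exact absurd h' (KK_lt h1 h)
  · exact h1
  · exact absurd h (KK_lt h1 h')

/-- exponents of the thresholds -/
def rho (s : ℕ) : ℕ := 2^(s+6)

theorem rho_succ (s : ℕ) : rho (s+1) = rho s + rho s := by unfold rho; ring

theorem rho_mono {s t : ℕ} (h : s ≤ t) : rho s ≤ rho t :=
  Nat.pow_le_pow_right (by norm_num) (by omega)

theorem two_rho_mono {s t : ℕ} (h : s ≤ t) : 2^(rho s) ≤ 2^(rho t) :=
  Nat.pow_le_pow_right (by norm_num) (rho_mono h)

theorem two_rho_dvd {s t : ℕ} (h : s ≤ t) : 2^(rho s) ∣ 2^(rho t) :=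
  pow_dvd_pow 2 (rho_mono h)

theorem lt_two_rho (s : ℕ) : s < 2^(rho s) := by
  have h1 : s + 6 < 2^(s+6) := Nat.lt_two_pow_self
  have h2 : rho s < 2^(rho s) := Nat.lt_two_pow_self
  have h3 : rho s = 2^(s+6) := rfl
  omega

theorem rho_ge (s : ℕ) : s + 6 ≤ rho s := by
  have h1 : s + 6 < 2^(s+6) := Nat.lt_two_pow_self
  have h3 : rho s = 2^(s+6) := rfl
  omega

theorem rho_bound {s k γ : ℕ} (hk : k < 2^(s+3)) (hγ : γ < 2^(rho s)) :
    81 * (3^k * γ) < 2^(rho (s+1)) := by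
  rw [rho_succ, pow_add]
  have h1 : 81 * 3^k ≤ 2^(rho s) := by
    have h2 : 81 * 3^k = 3^(k+4) := by ring
    rw [h2]
    calc 3^(k+4) ≤ 4^(k+4) := Nat.pow_le_pow_left (by norm_num) _
      _ = 2^(2*(k+4)) := by rw [pow_mul]; norm_num
      _ ≤ 2^(rho s) := by
        apply Nat.pow_le_pow_right (by norm_num)
        have h3 : rho s = 8 * 2^(s+3) := by unfold rho; ring
        have h4 : 1 ≤ 2^(s+3) := Nat.one_le_two_pow
        have h5 : 8 ≤ 2^(s+3) := by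
          have : 2^(s+3) = 8 * 2^s := by ring
          have : 1 ≤ 2^s := Nat.one_le_two_pow
          omega
        omega
  calc 81 * (3^k * γ) = (81 * 3^k) * γ := by ring
    _ ≤ 2^(rho s) * γ := Nat.mul_le_mul_right _ h1
    _ < 2^(rho s) * 2^(rho s) := Nat.mul_lt_mul_of_pos_left hγ (by positivity)

/-- threshold modulus -/
def MM (t : ℕ) : ℕ := 2^(rho (t+1))

theorem MM_pos (t : ℕ) : 0 < MM t := by unfold MM; positivity

theorem MM_even (t : ℕ) : 2 ∣ MM t := by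
  unfold MM
  exact dvd_pow_self 2 (by have := rho_ge (t+1); omega)

theorem MM_dvd {s t : ℕ} (h : s ≤ t) : MM s ∣ MM t := two_rho_dvd (by omega)

theorem MM_le {s t : ℕ} (h : s ≤ t) : MM s ≤ MM t := two_rho_mono (by omega)

theorem rho_le_MM {s t : ℕ} (h : s ≤ t) : 2^(rho s) < MM t := by
  unfold MM
  apply Nat.pow_lt_pow_right (by norm_num)
  have h1 := rho_mono h
  have h2 := rho_succ t
  have h3 := rho_ge t
  omega

theorem rho_le_MM' {s t : ℕ} (h : s < t) : MM s ≤ 2^(rho t) := two_rho_mono (by omega)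

theorem mod_odd {β : ℕ} (t : ℕ) (h : β % 2 = 1) : (β % MM t) % 2 = 1 := by
  rw [Nat.mod_mod_of_dvd _ (MM_even t)]; exact h

/-- multiplication without wrap-around -/
theorem mod_mul {β c M : ℕ} (h : c * (β % M) < M) : (c * β) % M = c * (β % M) := by
  rw [Nat.mul_mod, ← Nat.mod_eq_of_lt h, Nat.mul_mod c (β % M), Nat.mod_mod]

theorem cop3 (k t : ℕ) : Nat.Coprime (MM t) (3^k) := by
  unfold MM
  exact Nat.Coprime.pow _ _ (by norm_num)

/-- cancelling a power of three -/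
theorem mod_cancel {β k t q : ℕ} (h : (3^k * β) % MM t = 3^k * q) : β % MM t = q := by
  have hlt : 3^k * q < MM t := by rw [← h]; exact Nat.mod_lt _ (MM_pos t)
  have hq : q < MM t := lt_of_le_of_lt (Nat.le_mul_of_pos_left _ (by positivity)) hlt
  have h1 : 3^k * β ≡ 3^k * q [MOD MM t] := by
    unfold Nat.ModEq
    rw [h, Nat.mod_eq_of_lt hlt]
  have h2 := Nat.ModEq.cancel_left_of_coprime (cop3 k t) h1
  unfold Nat.ModEq at h2
  rw [h2, Nat.mod_eq_of_lt hq]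

/-- a small residue modulo a large modulus is a residue modulo a smaller one -/
theorem mod_down {β s t n : ℕ} (hst : s ≤ t) (h : β % MM t = n) (hn : n < MM s) :
    β % MM s = n := by
  rw [← Nat.mod_mod_of_dvd β (MM_dvd hst), h, Nat.mod_eq_of_lt hn]

end Pool.Agent.Helper81.HT
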