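import Mathlib
import Pool.Agent.Helper81.HT.Basics

/-! The three-colouring for sums of at most two terms. -/

namespace Pool.Agent.Helper81.HT

open Finset

/-- bit `e` of `b` is one and the gap of `b` just below it contains an element of `T_i` -/
def PP (f : ℕ → ℕ) (i b e : ℕ) : Prop :=
  b.testBit e = true ∧ ∃ τ < e, tt f i τ ∧ ∀ j < e, τ < j → ¬ b.testBit j = true

open Classical in
/-- the number of gaps of `b` containing an element of `T_i` -/
noncomputable def II (f : ℕ → ℕ) (i b : ℕ) : ℕ := ((range b).filter (PP f i b)).card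

theorem lt_of_testBit {b e : ℕ} (h : b.testBit e = true) : 2^e ≤ b :=
  Nat.ge_two_pow_of_testBit h

theorem PP_lt {f : ℕ → ℕ} {i b e : ℕ} (h : PP f i b e) : e < b :=
  lt_of_lt_of_le Nat.lt_two_pow_self (lt_of_testBit h.1)

open Classical in
theorem II_range {f : ℕ → ℕ} {i b N : ℕ} (hN : b ≤ N) :
    II f i b = ((range N).filter (PP f i b)).card := by
  unfold II
  congr 1
  ext e
  simp only [mem_filter, mem_range]
  exact ⟨fun h => ⟨lt_of_lt_of_le h.1 hN, h.2⟩, fun h => ⟨PP_lt h.2, h.2⟩⟩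

theorem II_step (f : ℕ → ℕ) (i b : ℕ) : II f (i+1) b = II f i b ∨ II f (i+1) b = II f i b + 1 := by
  classical
  unfold II
  have hsub : (range b).filter (PP f i b) ⊆ (range b).filter (PP f (i+1) b) := by
    intro e he
    simp only [mem_filter, mem_range] at he ⊢
    refine ⟨he.1, he.2.1, ?_⟩
    obtain ⟨τ, h1, h2, h3⟩ := he.2.2
    exact ⟨τ, h1, tt_mono (Nat.le_succ i) h2, h3⟩
  have hdiff : ((range b).filter (PP f (i+1) b) \ (range b).filter (PP f i b)).card ≤ 1 := by
    rw [card_le_one]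
    have key : ∀ e ∈ (range b).filter (PP f (i+1) b) \ (range b).filter (PP f i b),
        b.testBit e = true ∧ ∃ τ < e, (tt f (i+1) τ ∧ ¬ tt f i τ) ∧
          ∀ j < e, τ < j → ¬ b.testBit j = true := by
      intro e he
      simp only [mem_sdiff, mem_filter, mem_range, not_and] at he
      obtain ⟨⟨h0, h1, τ, h2, h3, h4⟩, h5⟩ := he
      refine ⟨h1, τ, h2, ⟨h3, fun h6 => ?_⟩, h4⟩
      exact h5 h0 ⟨h1, τ, h2, h6, h4⟩
    intro e he e' he'
    obtain ⟨h1, τ, h2, ⟨h3, h4⟩, h5⟩ := key e he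
    obtain ⟨h1', τ', h2', ⟨h3', h4'⟩, h5'⟩ := key e' he'
    have hττ := tt_uniq h3 h3' h4 h4'
    subst hττ
    rcases lt_trichotomy e e' with h | h | h
    · exact absurd h1 (h5' e h h2)
    · exact h
    · exact absurd h1' (h5 e' h h2')
  have := card_sdiff_add_card_eq_card hsub
  omega

open Classical in
theorem II_formula {f : ℕ → ℕ} {i b S : ℕ} (hS : ∀ τ, tt f i τ → τ < S) :
    II f i b = ((range S).filter (PP f i b)).card +
      (if (2^S ≤ b ∧ ∃ τ, tt f i τ ∧ ∀ j < S, τ < j → ¬ b.testBit j = true) then 1 else 0) := by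
  rw [II_range (N := S + b) (Nat.le_add_left b S)]
  have hsplit : (range (S+b)).filter (PP f i b) =
      (range S).filter (PP f i b) ∪ (Ico S (S+b)).filter (PP f i b) := by
    rw [← filter_union]
    congr 1
    ext e
    simp only [mem_range, mem_union, mem_Ico]
    omega
  have hdisj : Disjoint ((range S).filter (PP f i b)) ((Ico S (S+b)).filter (PP f i b)) := by
    rw [disjoint_left]
    intro e he he'
    simp only [mem_filter, mem_range, mem_Ico] at he he'
    omega
  rw [hsplit, card_union_of_disjoint hdisj]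
  congr 1
  have hle : ((Ico S (S+b)).filter (PP f i b)).card ≤ 1 := by
    rw [card_le_one]
    intro e he e' he'
    simp only [mem_filter, mem_Ico] at he he'
    obtain ⟨⟨h1, h2⟩, h3, τ, h4, h5, h6⟩ := he
    obtain ⟨⟨h1', h2'⟩, h3', τ', h4', h5', h6'⟩ := he'
    have hτ := hS τ h5
    have hτ' := hS τ' h5'
    rcases lt_trichotomy e e' with h | h | h
    · exact absurd h3 (h6' e h (by omega))
    · exact h
    · exact absurd h3' (h6 e' h (by omega))
  split_ifs with hc
  · obtain ⟨hb, τ, hτ, hj⟩ := hc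
    -- least bit at or above S
    have hex : ∃ e, S ≤ e ∧ b.testBit e = true := by
      by_contra hcon
      push Not at hcon
      have : b < 2^S := by
        apply Nat.lt_pow_two_of_testBit
        intro i hi
        have := hcon i hi
        simpa using this
      omega
    have hpos : 0 < ((Ico S (S+b)).filter (PP f i b)).card := by
      rw [card_pos]
      refine ⟨Nat.find hex, ?_⟩
      have hsp := Nat.find_spec hex
      have hmin := fun m hm => Nat.find_min hex (m := m) hm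
      simp only [mem_filter, mem_Ico]
      have h1 : Nat.find hex < b := lt_of_lt_of_le Nat.lt_two_pow_self (lt_of_testBit hsp.2)
      refine ⟨⟨hsp.1, by omega⟩, hsp.2, τ, lt_of_lt_of_le (hS τ hτ) hsp.1, hτ, ?_⟩
      intro j hj1 hj2
      by_cases hjS : j < S
      · exact hj j hjS hj2
      · intro hbit
        exact hmin j hj1 ⟨by omega, hbit⟩
    omega
  · rw [card_eq_zero]
    rw [filter_eq_empty_iff]
    intro e he hP
    simp only [mem_Ico] at he
    obtain ⟨h3, τ, h4, h5, h6⟩ := hP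
    apply hc
    refine ⟨le_trans (Nat.pow_le_pow_right (by norm_num) he.1) (lt_of_testBit h3), τ, h5, ?_⟩
    intro j hj1 hj2
    exact h6 j (by omega) hj2

theorem testBit_congr {b b' S j : ℕ} (h : b % 2^S = b' % 2^S) (hj : j < S) :
    b.testBit j = b'.testBit j := by
  have h1 := Nat.testBit_mod_two_pow b S j
  have h2 := Nat.testBit_mod_two_pow b' S j
  rw [h] at h1
  rw [h1] at h2
  simpa [hj] using h2

theorem PP_congr {f : ℕ → ℕ} {i b b' S e : ℕ} (h : b % 2^S = b' % 2^S) (he : e < S) :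
    PP f i b e ↔ PP f i b' e := by
  unfold PP
  rw [testBit_congr h he]
  refine and_congr_right fun _ => ?_
  refine exists_congr fun τ => and_congr_right fun hτ => and_congr_right fun _ => ?_
  refine forall_congr' fun j => forall_congr' fun hj => ?_
  rw [testBit_congr h (lt_trans hj he)]

theorem II_congr {f : ℕ → ℕ} {i b b' S : ℕ} (hS : ∀ τ, tt f i τ → τ < S)
    (h : b % 2^S = b' % 2^S) (hb : 2^S ≤ b) (hb' : 2^S ≤ b') : II f i b = II f i b' := by
  classical
  rw [II_formula hS, II_formula hS]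
  congr 1
  · congr 1
    apply filter_congr
    intro e he
    exact PP_congr h (mem_range.1 he)
  · refine if_congr ?_ rfl rfl
    simp only [hb, hb', true_and]
    refine exists_congr fun τ => and_congr_right fun _ => ?_
    refine forall_congr' fun j => forall_congr' fun hj => ?_
    rw [testBit_congr h hj]

open Classical in
theorem II_far {f : ℕ → ℕ} {i b S y : ℕ} (hS : ∀ τ, tt f i τ → τ < S)
    (hb : b < 2^S) (hy : 0 < y) : II f i (b + 2^S * y) = II f i b +
      (if (∃ τ, tt f i τ ∧ ∀ j < S, τ < j → ¬ b.testBit j = true) then 1 else 0) := by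
  have hmod : (b + 2^S * y) % 2^S = b % 2^S := Nat.add_mul_mod_self_left b (2^S) y
  rw [II_formula hS (b := b + 2^S * y), II_formula hS (b := b)]
  have hge : 2^S ≤ b + 2^S * y :=
    le_trans (Nat.le_mul_of_pos_right _ hy) (Nat.le_add_left _ _)
  have h0 : ¬ (2^S ≤ b) := by omega
  simp only [hge, h0, true_and, false_and, if_false, add_zero]
  congr 1
  · congr 1
    apply filter_congr
    intro e he
    exact PP_congr hmod (mem_range.1 he)
  · refine if_congr ?_ rfl rfl
    refine exists_congr fun τ => and_congr_right fun _ => ?_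
    refine forall_congr' fun j => forall_congr' fun hj => ?_
    rw [testBit_congr hmod hj]

/-- the colouring -/
noncomputable def C3 (f : ℕ → ℕ) (n : ℕ) : Fin 3 :=
  ⟨(vv n + II f (vv n) (od n)) % 3, Nat.mod_lt _ (by norm_num)⟩

/-- two distinct elements of X -/
theorem mono_pair {k n : ℕ} {c : ℕ → Fin k} {X : Set ℕ} (hn : 2 ≤ n) (h : Mono c (FSle n X))
    {x y : ℕ} (hx : x ∈ X) (hy : y ∈ X) (hxy : x ≠ y) : c x = c (x + y) := by
  refine h x ?_ (x+y) ?_
  · exact ⟨{x}, by simpa using hx, by simp, by simp; omega, by simp⟩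
  · refine ⟨{x, y}, ?_, ?_, ?_, ?_⟩
    · intro z hz
      simp only [coe_insert, coe_singleton, Set.mem_insert_iff, Set.mem_singleton_iff] at hz
      rcases hz with rfl | rfl <;> assumption
    · rw [card_pair hxy]; norm_num
    · rw [card_pair hxy]; exact hn
    · rw [sum_pair hxy]

/-- pigeonhole: in an infinite set two elements are congruent -/
theorem exists_congr_pair {Y : Set ℕ} (hY : Y.Infinite) (M : ℕ) (hM : 0 < M) :
    ∃ x ∈ Y, ∃ y ∈ Y, x < y ∧ x % M = y % M := by
  obtain ⟨x, hx, y, hy, hne, h⟩ := hY.exists_ne_map_eq_of_mapsTo (f := fun n => n % M)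
    (t := Set.Iio M) (fun n _ => Nat.mod_lt _ hM) (Set.finite_Iio M)
  rcases lt_or_gt_of_ne hne with h1 | h1
  · exact ⟨x, hx, y, hy, h1, h⟩
  · exact ⟨y, hy, x, hx, h1, h.symm⟩

theorem lev_finite {f : ℕ → ℕ} {X : Set ℕ} (h : Mono (C3 f) (FSle 2 X)) (k : ℕ) :
    {x ∈ X | 0 < x ∧ vv x = k}.Finite := by
  by_contra hinf
  obtain ⟨S0, hS0⟩ := tt_bdd f (k+1)
  set S := S0 + 1 with hSdef
  have hS : ∀ τ, tt f (k+1) τ → τ < S := fun τ hτ => lt_trans (hS0 τ hτ) (Nat.lt_succ_self _)
  have hSk : ∀ τ, tt f k τ → τ < S := fun τ hτ => hS τ (tt_mono (Nat.le_succ k) hτ)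
  have hinf2 : ({x ∈ X | 0 < x ∧ vv x = k} \ Set.Iio (2^(k+S+1))).Infinite :=
    (Set.Infinite.sdiff hinf (Set.finite_Iio _))
  obtain ⟨x, ⟨⟨hxX, hx0, hxk⟩, hxL⟩, y, ⟨⟨hyX, hy0, hyk⟩, hyL⟩, hxy, hmod⟩ :=
    exists_congr_pair hinf2 (2^(k+S+1)) (by positivity)
  obtain ⟨hx1, hx2⟩ := od_spec hx0
  obtain ⟨hy1, hy2⟩ := od_spec hy0
  rw [hxk] at hx1
  rw [hyk] at hy1
  set b := od x with hb
  set b' := od y with hb'
  have hlt : b < b' := by
    rw [hx1, hy1] at hxy
    exact lt_of_mul_lt_mul_left hxy (Nat.zero_le _)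
  -- y - x = 2^(k+S+1) * d
  obtain ⟨d, hd⟩ : 2^(k+S+1) ∣ y - x := (Nat.modEq_iff_dvd' hxy.le).1 hmod
  have hyx : y = x + 2^(k+S+1) * d := by omega
  have hb'b : b' = b + 2^(S+1) * d := by
    have h2 : 2^k * b' = 2^k * (b + 2^(S+1) * d) := by
      rw [← hy1, hyx, hx1, mul_add, ← mul_assoc, ← pow_add]
      congr 3
    exact Nat.eq_of_mul_eq_mul_left (by positivity) h2
  set b'' := b + 2^S * d with hb''
  have hsum : x + y = 2^(k+1) * b'' := by
    rw [hx1, hy1, hb'b, hb'']
    ring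
  have hodd : b'' % 2 = 1 := by
    rw [hb'', hSdef, pow_succ]
    have : 2^S0 * 2 * d = 2 * (2^S0 * d) := by ring
    rw [this]; omega
  have hmono := mono_pair (le_refl 2) h hxX hyX (by omega)
  unfold C3 at hmono
  rw [Fin.mk.injEq, vv_eq hodd hsum, od_eq hodd hsum, hxk, ← hb] at hmono
  have hbL : 2^S ≤ b := by
    have h3 : 2^(k+S+1) ≤ x := by simpa using hxL
    rw [hx1] at h3
    have h4 : 2^(k+S+1) = 2^k * 2^(S+1) := by rw [← pow_add]; congr 1
    rw [h4] at h3
    have h5 := Nat.le_of_mul_le_mul_left h3 (by positivity)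
    have h6 : 2^S ≤ 2^(S+1) := Nat.pow_le_pow_right (by norm_num) (Nat.le_succ _)
    omega
  have hcong : II f (k+1) b'' = II f (k+1) b := by
    refine II_congr hS ?_ ?_ hbL
    · rw [hb'']; exact Nat.add_mul_mod_self_left b (2^S) d
    · rw [hb'']; omega
  rw [hcong] at hmono
  rcases II_step f k b with h7 | h7 <;> rw [h7] at hmono <;> omega

theorem exists_high {f : ℕ → ℕ} {X : Set ℕ} (hX : X.Infinite) (h : Mono (C3 f) (FSle 2 X))
    (k : ℕ) : ∃ x ∈ X, 0 < x ∧ 2^k ∣ x := by
  by_contra hcon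
  push Not at hcon
  apply hX
  have : X ⊆ {0} ∪ ⋃ j ∈ range k, {x ∈ X | 0 < x ∧ vv x = j} := by
    intro x hx
    rcases Nat.eq_zero_or_pos x with h0 | h0
    · left; exact h0
    · right
      simp only [Set.mem_iUnion, mem_range]
      refine ⟨vv x, ?_, hx, h0, rfl⟩
      by_contra hlt
      exact hcon x hx h0 ((le_vv h0).1 (by omega))
  refine Set.Finite.subset ?_ this
  refine Set.Finite.union (Set.finite_singleton 0) ?_
  refine Set.Finite.biUnion (range k).finite_toSet ?_
  intro j _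
  exact lev_finite h j

theorem decode3 {f : ℕ → ℕ} {X : Set ℕ} (hX : X.Infinite) (h : Mono (C3 f) (FSle 2 X))
    {x k : ℕ} (hx : x ∈ X) (h0 : 0 < x) (hk : vv x = k) {τ : ℕ} (hτ : tt f k τ) : τ < x := by
  classical
  obtain ⟨hx1, hx2⟩ := od_spec h0
  rw [hk] at hx1
  set b := od x with hb
  obtain ⟨S0, hS0⟩ := tt_bdd f k
  set S := S0 + b + 1 with hSdef
  have hS : ∀ τ, tt f k τ → τ < S := fun τ hτ => by have := hS0 τ hτ; omega
  have hbS : b < 2^S := by
    have : S < 2^S := Nat.lt_two_pow_self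
    omega
  obtain ⟨y, hyX, hy0, z, hz⟩ := exists_high hX h (k+S)
  have hz0 : 0 < z := by
    rcases Nat.eq_zero_or_pos z with hz0 | hz0
    · rw [hz0] at hz; omega
    · exact hz0
  have hxy : x ≠ y := by
    intro he
    have h1 : 2^k * 2^S * z = 2^k * b := by rw [← pow_add, ← hz, ← he, ← hx1]
    rw [mul_assoc] at h1
    have h2 := Nat.eq_of_mul_eq_mul_left (by positivity) h1
    have h3 : 2^S ≤ 2^S * z := Nat.le_mul_of_pos_right _ hz0
    omega
  have hsum : x + y = 2^k * (b + 2^S * z) := by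
    rw [hz, pow_add]; nlinarith [hx1]
  have hodd : (b + 2^S * z) % 2 = 1 := by
    rw [hSdef, pow_succ]
    have : 2^(S0+b) * 2 * z = 2 * (2^(S0+b) * z) := by ring
    rw [this]; omega
  have hmono := mono_pair (le_refl 2) h hx hyX hxy
  unfold C3 at hmono
  rw [Fin.mk.injEq, vv_eq hodd hsum, od_eq hodd hsum, hk, ← hb, II_far hS hbS hz0] at hmono
  have hno : ¬ (∃ τ, tt f k τ ∧ ∀ j < S, τ < j → ¬ b.testBit j = true) := by
    intro hc
    rw [if_pos hc] at hmono
    omega
  push Not at hno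
  obtain ⟨j, hj1, hj2, hj3⟩ := hno τ hτ
  have h5 : 2^j ≤ b := lt_of_testBit hj3
  have h6 : j < 2^j := Nat.lt_two_pow_self
  have h7 : b ≤ x := by rw [hx1]; exact Nat.le_mul_of_pos_left _ (by positivity)
  omega

/-! computability -/

/-- list version of `PP` -/
def PL (L : List ℕ) (i b e : ℕ) : Prop :=
  b.testBit e = true ∧ ∃ τ < e, ttL L i τ ∧ ∀ j < e, τ < j → ¬ b.testBit j = true

open Classical in
/-- list version of `II` -/
noncomputable def IL (L : List ℕ) (i b : ℕ) : ℕ := ((range b).filter (PL L i b)).card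

theorem II_eq_IL {f : ℕ → ℕ} {m i b : ℕ} (hb : b ≤ m) :
    II f i b = IL ((List.range (m+1)).map f) i b := by
  classical
  unfold II IL
  congr 1
  apply filter_congr
  intro e he
  rw [mem_range] at he
  unfold PP PL
  refine and_congr_right fun _ => ?_
  refine exists_congr fun τ => and_congr_right fun hτ => ?_
  rw [ttL_iff (by omega)]

/-- list version of the colouring -/
noncomputable def C3L (L : List ℕ) (n : ℕ) : Fin 3 :=
  ⟨(vv n + IL L (vv n) (od n)) % 3, Nat.mod_lt _ (by norm_num)⟩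

theorem od_le (n : ℕ) : od n ≤ n := Nat.div_le_self _ _

theorem C3_eq (f : ℕ → ℕ) (m : ℕ) : C3 f m = C3L ((List.range (m+1)).map f) m := by
  unfold C3 C3L
  rw [Fin.mk.injEq, II_eq_IL (od_le m)]

theorem pr_PL : PrimrecRel (fun (q : List ℕ × ℕ) (e : ℕ) => PL q.1 (vv q.2) (od q.2) e) := by
  unfold PL
  have hodp : Primrec (fun a : (List ℕ × ℕ) × ℕ => od a.1.2) :=
    pr_od.comp (Primrec.snd.comp Primrec.fst)
  have hvvp : Primrec (fun a : (List ℕ × ℕ) × ℕ => vv a.1.2) :=
    pr_vv.comp (Primrec.snd.comp Primrec.fst)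
  refine PrimrecPred.and (pr_testBit hodp Primrec.snd) ?_
  refine pr_exists (α := (List ℕ × ℕ) × ℕ) (f := fun a => a.2)
    (p := fun a τ => ttL a.1.1 (vv a.1.2) τ ∧ ∀ j < a.2, τ < j → ¬ (od a.1.2).testBit j = true)
    Primrec.snd ?_
  have h1 : PrimrecPred (fun a : ((List ℕ × ℕ) × ℕ) × ℕ => ttL a.1.1.1 (vv a.1.1.2) a.2) :=
    pr_ttL (Primrec.fst.comp (Primrec.fst.comp Primrec.fst)) (hvvp.comp Primrec.fst) Primrec.snd
  have h2 : PrimrecPred (fun a : ((List ℕ × ℕ) × ℕ) × ℕ =>
      ∀ j < a.1.2, a.2 < j → ¬ (od a.1.1.2).testBit j = true) := by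
    refine pr_forall (α := ((List ℕ × ℕ) × ℕ) × ℕ) (f := fun a => a.1.2)
      (p := fun a j => a.2 < j → ¬ (od a.1.1.2).testBit j = true)
      (Primrec.snd.comp Primrec.fst) ?_
    have h3 : PrimrecPred (fun a : (((List ℕ × ℕ) × ℕ) × ℕ) × ℕ =>
        ¬ (a.1.2 < a.2) ∨ ¬ (od a.1.1.1.2).testBit a.2 = true) := by
      refine PrimrecPred.or (PrimrecPred.not ?_) (PrimrecPred.not ?_)
      · exact Primrec.nat_lt.comp (Primrec.snd.comp Primrec.fst) Primrec.snd
      · exact pr_testBit (hodp.comp (Primrec.fst.comp Primrec.fst)) Primrec.snd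
    exact h3.of_eq (fun a => by tauto)
  exact h1.and h2

theorem pr_C3L : Primrec₂ C3L := by
  classical
  have h1 : Primrec (fun q : List ℕ × ℕ => (vv q.2 + IL q.1 (vv q.2) (od q.2)) % 3) := by
    refine Primrec.nat_mod.comp (Primrec.nat_add.comp (pr_vv.comp Primrec.snd) ?_)
      (Primrec.const 3)
    unfold IL
    exact pr_count (α := List ℕ × ℕ) (f := fun q => od q.2)
      (p := fun q e => PL q.1 (vv q.2) (od q.2) e) (pr_od.comp Primrec.snd) pr_PL
  exact Primrec.fin_val_iff.1 h1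

theorem main3 (A : Set ℕ) :
    ∃ c : ℕ → Fin 3, ComputableIn {chi A} c ∧
      ∀ X : Set ℕ, X.Infinite → Mono c (FSle 2 X) →
        ∀ g : ℕ →. ℕ, RecursiveIn {chi A} g →
          RecursiveIn {chi A, chi X} (chi {n | (g n).Dom}) := by
  refine reduction C3 C3L pr_C3L C3_eq ?_ ?_ A
  · intro f X hX h e
    exact exists_high hX h (2*e+2)
  · intro f X hX h e x hx h0 hd s hs
    obtain ⟨s', hs', hfirst⟩ := tt_find hs
    refine ⟨s', ?_, hs'⟩
    have hk : 2*e+2 ≤ vv x := (le_vv h0).2 hd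
    have := decode3 hX h hx h0 rfl (τ := s') ⟨by omega, hfirst⟩
    omega

end Pool.Agent.Helper81.HT
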