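import Mathlib
import Pool.Agent.Helper81.HT.Arith

/-! The predicates `O`, `N`, `G` of the two-colour construction. -/

namespace Pool.Agent.Helper81.HT

/-- `r` is obtained from a number below `2 ^ rho s` by repeated multiplication by `3`, without
meeting a number with `KK (s+5)` -/
def OO (s r : ℕ) : Prop :=
  ∃ k γ, γ < 2^(rho s) ∧ r = 3^k * γ ∧ ∀ j < k, ¬ KK (s+5) (3^j * γ)

/-- the residue of `β` modulo `MM t` is below `2 ^ rho s` -/
def NN (s t β : ℕ) : Prop := β % MM t < 2^(rho s)

/-- the sets `G_{s,t}` -/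
def GG (s t β : ℕ) : Prop :=
  OO s (β % MM t) ∨ ∃ k < 4, NN s t (3^k * β) ∧ ∀ m < k, ¬ KK 4 (3^m * β)

theorem odd_of_mul {k γ r : ℕ} (h : r = 3^k * γ) (hr : r % 2 = 1) : γ % 2 = 1 := by
  by_contra hc
  have h2 : γ % 2 = 0 := by omega
  rw [h, Nat.mul_mod, h2] at hr
  simp at hr

theorem odd_mul3 {β : ℕ} (h : β % 2 = 1) : (3 * β) % 2 = 1 := by omega

theorem odd_pow3 {β : ℕ} (k : ℕ) (h : β % 2 = 1) : (3^k * β) % 2 = 1 := by
  have : 3^k % 2 = 1 := by
    rw [Nat.pow_mod]; simp
  rw [Nat.mul_mod, this, h]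

theorem OO_bound {s r : ℕ} (hr : r % 2 = 1) (h : OO s r) : 81 * r < MM s := by
  obtain ⟨k, γ, hγ, hk, hno⟩ := h
  have hodd := odd_of_mul hk hr
  have hk3 : k < 2^(s+3) := by
    by_contra hc
    obtain ⟨j, hj, hK⟩ := hit (m := s+5) hodd (by omega)
    have : s + 5 - 2 = s + 3 := by omega
    rw [this] at hj
    exact hno j (by omega) hK
  rw [hk]
  exact rho_bound hk3 hγ

theorem OO_small {s r : ℕ} (h : r < 2^(rho s)) : OO s r :=
  ⟨0, r, h, by simp, by intro j hj; omega⟩

theorem OO_mul {s r : ℕ} (h : OO s r) (hK : ¬ KK (s+5) r) : OO s (3 * r) := by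
  obtain ⟨k, γ, hγ, hk, hno⟩ := h
  refine ⟨k+1, γ, hγ, by rw [hk]; ring, ?_⟩
  intro j hj
  rcases Nat.lt_succ_iff_lt_or_eq.1 hj with h1 | h1
  · exact hno j h1
  · rw [h1, ← hk]; exact hK

theorem OO_div {s r : ℕ} (h : OO s (3 * r)) : OO s r := by
  obtain ⟨k, γ, hγ, hk, hno⟩ := h
  cases k with
  | zero =>
    apply OO_small
    simp at hk
    omega
  | succ k =>
    refine ⟨k, γ, hγ, ?_, fun j hj => hno j (by omega)⟩
    have : 3 * r = 3 * (3^k * γ) := by rw [hk]; ring
    omega

theorem OO_mono {s s' r : ℕ} (hr : r % 2 = 1) (h : OO s r) (hs : s < s') : OO s' r := by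
  apply OO_small
  have h1 := OO_bound hr h
  have h2 := rho_le_MM' hs
  omega

theorem not_OO_ge {s r : ℕ} (h : ¬ OO s r) : 2^(rho s) ≤ r := by
  by_contra hc
  exact h (OO_small (by omega))

theorem pow3_le {k : ℕ} (hk : k ≤ 4) : 3^k ≤ 81 := by
  calc 3^k ≤ 3^4 := Nat.pow_le_pow_right (by norm_num) hk
    _ = 81 := by norm_num

/-- if `O_s(β mod M_s)` then multiplying by at most `3^4` does not wrap around modulo `M_s` -/
theorem OO_mod {s β k : ℕ} (hβ : β % 2 = 1) (h : OO s (β % MM s)) (hk : k ≤ 4) :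
    (3^k * β) % MM s = 3^k * (β % MM s) := by
  apply mod_mul
  have h1 := OO_bound (mod_odd s hβ) h
  have h2 := pow3_le hk
  calc 3^k * (β % MM s) ≤ 81 * (β % MM s) := Nat.mul_le_mul_right _ h2
    _ < MM s := h1

theorem small_mul {a s k x : ℕ} (has : a ≤ s) (hk : k ≤ 4) (hx : x < 2^(rho a)) :
    3^k * x < MM s := by
  have h1 : 81 * (3^0 * x) < 2^(rho (a+1)) := rho_bound (by positivity) hx
  have h2 := pow3_le hk
  have h3 : MM a ≤ MM s := MM_le has
  unfold MM at *
  calc 3^k * x ≤ 81 * x := Nat.mul_le_mul_right _ h2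
    _ < 2^(rho (a+1)) := by simpa using h1
    _ ≤ _ := h3

/-- L3: separation -/
theorem NN_back {a s t k β : ℕ} (hβ : β % 2 = 1) (has : a ≤ s) (hst : s ≤ t) (hk : k ≤ 4)
    (h : OO s (β % MM s)) (hN : NN a t (3^k * β)) : NN a t β := by
  unfold NN at hN ⊢
  have hlt : (3^k * β) % MM t < MM s :=
    lt_of_lt_of_le hN (le_of_lt (rho_le_MM has))
  have h1 : (3^k * β) % MM s = (3^k * β) % MM t := mod_down hst rfl hlt
  rw [OO_mod hβ h hk] at h1
  have h2 := mod_cancel (t := t) h1.symm
  rw [h2]
  rw [← h1] at hN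
  exact lt_of_le_of_lt (Nat.le_mul_of_pos_left _ (by positivity)) hN

theorem NN_GG {s t β : ℕ} (h : NN s t β) : GG s t β := Or.inl (OO_small h)

theorem MM_kk_dvd {s t : ℕ} (hst : s ≤ t) : 2^(s+5+1) ∣ MM t := by
  unfold MM
  apply pow_dvd_pow
  have := rho_ge (t+1)
  omega

theorem KK_mod {s t β : ℕ} (hst : s ≤ t) : KK (s+5) (β % MM t) ↔ KK (s+5) β := by
  apply KK_congr
  rw [Nat.mod_mod_of_dvd _ (MM_kk_dvd hst)]

/-- L1 -/
theorem GG_exit {s t β : ℕ} (hβ : β % 2 = 1) (hst : s ≤ t) (h : GG s t β)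
    (h3 : ¬ GG s t (3 * β)) : KK (s+5) β := by
  have key : OO s (β % MM t) → KK (s+5) β := by
    intro hO
    by_contra hK
    apply h3
    left
    have hb := OO_bound (mod_odd t hβ) hO
    have hle := MM_le hst
    rw [mod_mul (by omega)]
    refine OO_mul hO ?_
    rwa [KK_mod hst]
  rcases h with hO | ⟨k, hk, hN, hno⟩
  · exact key hO
  · cases k with
    | zero =>
      apply key
      apply OO_small
      simpa [NN] using hN
    | succ k =>
      exfalso
      apply h3
      right
      refine ⟨k, by omega, ?_, ?_⟩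
      · have : 3^k * (3 * β) = 3^(k+1) * β := by ring
        rw [this]; exact hN
      · intro m hm
        have : 3^m * (3 * β) = 3^(m+1) * β := by ring
        rw [this]; exact hno (m+1) (by omega)

/-- L2 -/
theorem GG_enter {s t β : ℕ} (hβ : β % 2 = 1) (h : ¬ GG s t β)
    (h3 : GG s t (3 * β)) : KK 4 β := by
  by_contra hK
  rcases h3 with ⟨k, γ, hγ, hk, hno⟩ | ⟨k, hk, hN, hno⟩
  · cases k with
    | zero =>
      apply h
      right
      refine ⟨1, by omega, ?_, ?_⟩
      · unfold NN
        rw [pow_one, hk]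
        simpa using hγ
      · intro m hm
        have : m = 0 := by omega
        subst this
        simpa using hK
    | succ k =>
      apply h
      left
      have h1 : (3^1 * β) % MM t = 3^1 * (3^k * γ) := by
        rw [pow_one, hk]; ring
      have h2 := mod_cancel h1
      rw [h2]
      exact ⟨k, γ, hγ, rfl, fun j hj => hno j (by omega)⟩
  · by_cases hk3 : k = 3
    · obtain ⟨j, hj, hKj⟩ := hit (m := 4) hβ (by omega)
      have hj4 : j < 4 := by simpa using hj
      cases j with
      | zero => apply hK; simpa using hKj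
      | succ j =>
        apply hno j (by omega)
        have : 3^j * (3 * β) = 3^(j+1) * β := by ring
        rw [this]; exact hKj
    · apply h
      right
      refine ⟨k+1, by omega, ?_, ?_⟩
      · have : 3^(k+1) * β = 3^k * (3 * β) := by ring
        rw [this]; exact hN
      · intro m hm
        cases m with
        | zero => simpa using hK
        | succ m =>
          have : 3^(m+1) * β = 3^m * (3 * β) := by ring
          rw [this]; exact hno m (by omega)

/-- L5 -/
theorem GG_back {a s t β : ℕ} (hβ : β % 2 = 1) (has : a ≤ s) (hst : s ≤ t)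
    (h : OO s (β % MM s)) (h3 : GG a t (3 * β)) : GG a t β := by
  rcases h3 with ⟨k, γ, hγ, hk, hno⟩ | ⟨k, hk, hN, hno⟩
  · cases k with
    | zero =>
      apply NN_GG
      refine NN_back hβ has hst (k := 1) (by omega) h ?_
      unfold NN
      rw [pow_one, hk]
      simpa using hγ
    | succ k =>
      left
      have h1 : (3^1 * β) % MM t = 3^1 * (3^k * γ) := by
        rw [pow_one, hk]; ring
      have h2 := mod_cancel h1
      rw [h2]
      exact ⟨k, γ, hγ, rfl, fun j hj => hno j (by omega)⟩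
  · apply NN_GG
    refine NN_back hβ has hst (k := k+1) (by omega) h ?_
    have : 3^(k+1) * β = 3^k * (3 * β) := by ring
    rw [this]; exact hN

theorem NN_anti {s t t' β : ℕ} (hst : s ≤ t) (htt : t ≤ t') (h : NN s t' β) : NN s t β := by
  unfold NN at *
  have := mod_down (β := β) htt rfl (lt_of_lt_of_le h (le_of_lt (rho_le_MM hst)))
  rw [this]; exact h

/-- `G_{s,t}` decreases in `t` -/
theorem GG_anti {s t t' β : ℕ} (hβ : β % 2 = 1) (hst : s ≤ t) (htt : t ≤ t')
    (h : GG s t' β) : GG s t β := by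
  rcases h with hO | ⟨k, hk, hN, hno⟩
  · left
    have hb := OO_bound (mod_odd t' hβ) hO
    have h1 := mod_down (β := β) (s := t) htt rfl (by have := MM_le hst; omega)
    rw [h1]; exact hO
  · right
    exact ⟨k, hk, NN_anti hst htt hN, hno⟩

theorem NN_up {s s' t β : ℕ} (hs : s ≤ s') (h : NN s t β) : NN s' t β :=
  lt_of_lt_of_le h (two_rho_mono hs)

/-- `G_{s,t}` increases in `s` -/
theorem GG_up {s s' t β : ℕ} (hβ : β % 2 = 1) (hs : s < s')
    (h : GG s t β) : GG s' t β := by
  rcases h with hO | ⟨k, hk, hN, hno⟩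
  · left
    exact OO_mono (mod_odd t hβ) hO hs
  · right
    exact ⟨k, hk, NN_up hs.le hN, hno⟩

/-- `G_{s,s'}` and `G_{s',t}` imply `G_{s,t}` for `s < s' < t` -/
theorem GG_trans {s s' t β : ℕ} (hβ : β % 2 = 1) (hs : s < s') (ht : s' < t)
    (h : GG s s' β) (h' : GG s' t β) : GG s t β := by
  rcases h with hO | ⟨k, hk, hN, hno⟩
  · rcases h' with hO' | ⟨k', hk', hN', hno'⟩
    · -- both orbits
      left
      have hb' := OO_bound (mod_odd t hβ) hO'
      have h1 : β % MM s' = β % MM t := mod_down ht.le rfl (by omega)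
      rw [← h1]; exact hO
    · left
      have h1 : (3^k' * β) % MM s' = (3^k' * β) % MM t :=
        mod_down ht.le rfl (lt_of_lt_of_le hN' (le_of_lt (rho_le_MM (le_refl _))))
      have hOs' : OO s' (β % MM s') := OO_mono (mod_odd s' hβ) hO hs
      rw [OO_mod hβ hOs' (by omega)] at h1
      have h2 := mod_cancel (t := t) h1.symm
      rw [h2]; exact hO
  · rcases h' with hO' | ⟨k', hk', hN', hno'⟩
    · -- small at k modulo MM s', orbit modulo MM t
      apply NN_GG
      unfold NN at hN ⊢
      have hb' := OO_bound (mod_odd t hβ) hO'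
      have h1 : β % MM s' = β % MM t := mod_down ht.le rfl (by omega)
      have hO2 : OO s' (β % MM s') := by rw [h1]; exact hO'
      rw [OO_mod hβ hO2 (by omega), h1] at hN
      exact lt_of_le_of_lt (Nat.le_mul_of_pos_left _ (by positivity)) hN
    · right
      refine ⟨k, hk, ?_, hno⟩
      unfold NN at *
      have h1 : (3^k' * β) % MM s' = (3^k' * β) % MM t :=
        mod_down ht.le rfl (lt_of_lt_of_le hN' (le_of_lt (rho_le_MM (le_refl _))))
      rcases le_total k' k with hkk | hkk
      · -- k ≥ k'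
        obtain ⟨d, rfl⟩ : ∃ d, k = k' + d := ⟨k - k', by omega⟩
        have e1 : 3^(k'+d) * β = 3^d * (3^k' * β) := by rw [pow_add]; ring
        have h2 : (3^(k'+d) * β) % MM t = 3^d * ((3^k' * β) % MM t) := by
          rw [e1]
          apply mod_mul
          exact small_mul ht.le (by omega) hN'
        have h3 : (3^(k'+d) * β) % MM s' = 3^d * ((3^k' * β) % MM s') := by
          rw [e1]
          apply mod_mul
          rw [h1]
          exact small_mul (le_refl _) (by omega) hN'
        rw [h2, ← h1, ← h3]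
        exact hN
      · -- k ≤ k'
        obtain ⟨d, rfl⟩ : ∃ d, k' = k + d := ⟨k' - k, by omega⟩
        have e1 : 3^(k+d) * β = 3^d * (3^k * β) := by rw [pow_add]; ring
        have h3 : (3^(k+d) * β) % MM s' = 3^d * ((3^k * β) % MM s') := by
          rw [e1]
          apply mod_mul
          exact small_mul hs.le (by omega) hN
        rw [h3, e1] at h1
        have h2 := mod_cancel (t := t) h1.symm
        rw [h2]
        exact hN

end Pool.Agent.Helper81.HT
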