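import Mathlib
import Pool.Agent.Helper81.HT.Gen

/-! The parity functions `D_T` of the two-colour construction. -/

namespace Pool.Agent.Helper81.HT

open Finset

open Classical in
/-- the parity function -/
noncomputable def DD (T : Finset ℕ) (β : ℕ) : ℕ :=
  (T.filter (fun s => GG s s β ∧ ¬ ∃ t ∈ T, s < t ∧ GG s t β)).card % 2

theorem DD_lt (T : Finset ℕ) (β : ℕ) : DD T β < 2 := Nat.mod_lt _ (by norm_num)

theorem DD_congr {T : Finset ℕ} {β β' : ℕ}
    (h : ∀ s ∈ T, ∀ t ∈ T, s ≤ t → (GG s t β ↔ GG s t β')) : DD T β = DD T β' := by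
  classical
  unfold DD
  congr 2
  apply filter_congr
  intro s hs
  rw [h s hs s hs le_rfl]
  refine and_congr_right fun _ => not_congr ?_
  refine exists_congr fun t => and_congr_right fun ht => and_congr_right fun hst => ?_
  exact h s hs t ht hst.le

theorem GG_same {s t β : ℕ} (hβ : β % 2 = 1) (hst : s ≤ t) (h5 : ¬ KK (s+5) β)
    (h4 : ¬ KK 4 β) : GG s t β ↔ GG s t (3 * β) := by
  constructor
  · intro h
    by_contra h3
    exact h5 (GG_exit hβ hst h h3)
  · intro h
    by_contra h3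
    exact h4 (GG_enter hβ h3 h)

theorem DD_change {T : Finset ℕ} {β : ℕ} (hβ : β % 2 = 1) (h : DD T β ≠ DD T (3 * β)) :
    KK 4 β ∨ ∃ s ∈ T, KK (s+5) β := by
  by_contra hc
  push Not at hc
  apply h
  apply DD_congr
  intro s hs t _ hst
  exact GG_same hβ hst (hc.2 s hs) hc.1

theorem DD_E1 {T T' : Finset ℕ} {β : ℕ} (hβ : β % 2 = 1) (h : DD T β ≠ DD T (3 * β)) :
    DD T' (3 * β) = DD T' (3 * (3 * β)) := by
  have hK : ∃ m, 4 ≤ m ∧ KK m β := by
    rcases DD_change hβ h with h1 | ⟨s, _, h1⟩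
    · exact ⟨4, le_rfl, h1⟩
    · exact ⟨s+5, by omega, h1⟩
  obtain ⟨m, hm, hK⟩ := hK
  apply DD_congr
  intro s hs t _ hst
  exact GG_same (odd_mul3 hβ) hst (KK_three hm (by omega) hK) (KK_three hm le_rfl hK)

/-- the condition under which inserting `a` changes the parity -/
def Phi (a : ℕ) (T : Finset ℕ) (β : ℕ) : Prop :=
  GG a a β ∧ (∀ t ∈ T, a < t → ¬ GG a t β) ∧ (∀ s ∈ T, s < a → ¬ GG s a β)

open Classical in
theorem DD_insert {a : ℕ} {T : Finset ℕ} {β : ℕ} (hβ : β % 2 = 1) (ha : a ∉ T) :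
    DD (insert a T) β = (DD T β + (if Phi a T β then 1 else 0)) % 2 := by
  set PT : ℕ → Prop := fun s => GG s s β ∧ ¬ ∃ t ∈ T, s < t ∧ GG s t β with hPT
  set A := T.filter PT with hA
  set R := A.filter (fun s => s < a ∧ GG s a β) with hR
  have hDT : DD T β = A.card % 2 := rfl
  have hfil : (insert a T).filter (fun s => GG s s β ∧ ¬ ∃ t ∈ insert a T, s < t ∧ GG s t β) =
      (if PT a then {a} else ∅) ∪ (A \ R) := by
    ext s
    simp only [mem_filter, mem_insert, mem_union, mem_sdiff, hA, hR]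
    constructor
    · rintro ⟨hs, h1, h2⟩
      rcases hs with rfl | hs
      · left
        have : PT s := ⟨h1, fun ⟨t, ht, h3⟩ => h2 ⟨t, Or.inr ht, h3⟩⟩
        rw [if_pos this]; simp
      · right
        refine ⟨⟨hs, h1, fun ⟨t, ht, h3⟩ => h2 ⟨t, Or.inr ht, h3⟩⟩, ?_⟩
        rintro ⟨_, h4⟩
        exact h2 ⟨a, Or.inl rfl, h4⟩
    · rintro (h | ⟨⟨hs, h1, h2⟩, h3⟩)
      · split_ifs at h with hPa
        · rw [mem_singleton] at h
          subst h
          refine ⟨Or.inl rfl, hPa.1, ?_⟩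
          rintro ⟨t, ht, hlt, hG⟩
          rcases ht with rfl | ht
          · exact absurd hlt (lt_irrefl _)
          · exact hPa.2 ⟨t, ht, hlt, hG⟩
        · simp at h
      · refine ⟨Or.inr hs, h1, ?_⟩
        rintro ⟨t, ht, hlt, hG⟩
        rcases ht with rfl | ht
        · exact h3 ⟨⟨hs, h1, h2⟩, hlt, hG⟩
        · exact h2 ⟨t, ht, hlt, hG⟩
  have hRA : R ⊆ A := filter_subset _ _
  have hdisj : Disjoint (if PT a then ({a} : Finset ℕ) else ∅) (A \ R) := by
    rw [disjoint_left]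
    intro x hx hx'
    split_ifs at hx
    · rw [mem_singleton] at hx
      subst hx
      exact ha (mem_filter.1 (mem_sdiff.1 hx').1).1
    · simp at hx
  have hcard : DD (insert a T) β = ((if PT a then 1 else 0) + (A.card - R.card)) % 2 := by
    have : DD (insert a T) β = ((insert a T).filter
      (fun s => GG s s β ∧ ¬ ∃ t ∈ insert a T, s < t ∧ GG s t β)).card % 2 := rfl
    rw [this, hfil, card_union_of_disjoint hdisj, card_sdiff_of_subset hRA]
    congr 2
    split_ifs <;> simp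
  have hRle : R.card ≤ A.card := card_le_card hRA
  by_cases hex : ∃ s ∈ T, s < a ∧ GG s a β
  · -- case 1
    have hnPhi : ¬ Phi a T β := by
      rintro ⟨_, _, h3⟩
      obtain ⟨s, hs, h1, h2⟩ := hex
      exact h3 s hs h1 h2
    rw [if_neg hnPhi, hcard, hDT]
    obtain ⟨s1, hs1, hlt1, hG1⟩ := hex
    have hne : (T.filter (fun s => s < a)).Nonempty := ⟨s1, mem_filter.2 ⟨hs1, hlt1⟩⟩
    set m := (T.filter (fun s => s < a)).max' hne with hm
    have hmmem := (T.filter (fun s => s < a)).max'_mem hne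
    rw [← hm, mem_filter] at hmmem
    have hmax : ∀ s ∈ T, s < a → s ≤ m := fun s hs h => le_max' _ _ (mem_filter.2 ⟨hs, h⟩)
    have hGm : GG m a β := by
      rcases lt_or_eq_of_le (hmax s1 hs1 hlt1) with h | h
      · exact GG_up hβ h hG1
      · rw [← h]; exact hG1
    have hGmm : GG m m β := GG_anti hβ le_rfl hmmem.2.le hGm
    have hGaa : GG a a β := GG_up hβ hmmem.2 hGm
    have hiff : PT a ↔ PT m := by
      simp only [hPT, hGmm, hGaa, true_and]
      apply not_congr
      constructor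
      · rintro ⟨t, ht, hlt, hG⟩
        exact ⟨t, ht, lt_trans hmmem.2 hlt, GG_trans hβ hmmem.2 hlt hGm hG⟩
      · rintro ⟨t, ht, hlt, hG⟩
        have hat : a < t := by
          by_contra hc
          have hta : t ≠ a := by rintro rfl; exact ha ht
          have := hmax t ht (by omega)
          omega
        exact ⟨t, ht, hat, GG_up hβ hmmem.2 hG⟩
    have hRc : R.card = if PT a then 1 else 0 := by
      have hsub : R ⊆ {m} := by
        intro s hs
        simp only [hR, hA, mem_filter] at hs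
        obtain ⟨⟨h1, h2, h3⟩, h4, h5⟩ := hs
        rw [mem_singleton]
        by_contra hne'
        have hle := hmax s h1 h4
        exact h3 ⟨m, hmmem.1, by omega, GG_anti hβ hle hmmem.2.le h5⟩
      by_cases hPm : PT m
      · rw [if_pos (hiff.2 hPm)]
        have : R = {m} := by
          apply subset_antisymm hsub
          rw [singleton_subset_iff]
          simp only [hR, hA, mem_filter]
          exact ⟨⟨hmmem.1, hPm⟩, hmmem.2, hGm⟩
        rw [this, card_singleton]
      · rw [if_neg (fun h => hPm (hiff.1 h))]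
        rw [card_eq_zero, eq_empty_iff_forall_notMem]
        intro s hs
        have := hsub hs
        rw [mem_singleton] at this
        subst this
        simp only [hR, hA, mem_filter] at hs
        exact hPm hs.1.2
    rw [hRc] at hRle ⊢
    split_ifs at * <;> omega
  · -- case 2
    push Not at hex
    have hR0 : R.card = 0 := by
      rw [card_eq_zero, eq_empty_iff_forall_notMem]
      intro s hs
      simp only [hR, hA, mem_filter] at hs
      exact hex s hs.1.1 hs.2.1 hs.2.2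
    have hiff : Phi a T β ↔ PT a := by
      unfold Phi
      simp only [hPT]
      constructor
      · rintro ⟨h1, h2, _⟩
        exact ⟨h1, fun ⟨t, ht, h3, h4⟩ => h2 t ht h3 h4⟩
      · rintro ⟨h1, h2⟩
        exact ⟨h1, fun t ht h3 h4 => h2 ⟨t, ht, h3, h4⟩, hex⟩
    rw [hcard, hDT, hR0, if_congr hiff rfl rfl]
    split_ifs <;> omega

theorem Phi_exit {a : ℕ} {T : Finset ℕ} {β : ℕ} (hβ : β % 2 = 1)
    (h : Phi a T β) (h3 : ¬ Phi a T (3 * β)) : KK (a+5) β := by
  obtain ⟨h1, h2, h4⟩ := h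
  by_cases hG : GG a a (3 * β)
  · -- some other set was entered
    have hKO : KK 4 β → OO a (β % MM a) := by
      intro hK
      rcases h1 with hO | ⟨k, hk, hN, hno⟩
      · exact hO
      · cases k with
        | zero => apply OO_small; simpa [NN] using hN
        | succ k => exact absurd (by simpa using hK) (hno 0 (by omega))
    have h5 : (∃ t ∈ T, a < t ∧ GG a t (3 * β)) ∨ (∃ s ∈ T, s < a ∧ GG s a (3 * β)) := by
      by_contra hc
      push Not at hc
      exact h3 ⟨hG, hc.1, hc.2⟩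
    exfalso
    rcases h5 with ⟨t, ht, hlt, hGt⟩ | ⟨s, hs, hlt, hGs⟩
    · have hK := GG_enter hβ (h2 t ht hlt) hGt
      exact h2 t ht hlt (GG_back hβ le_rfl hlt.le (hKO hK) hGt)
    · have hK := GG_enter hβ (h4 s hs hlt) hGs
      exact h4 s hs hlt (GG_back hβ hlt.le le_rfl (hKO hK) hGs)
  · exact GG_exit hβ le_rfl h1 hG

/-- P1 -/
theorem P1 {a : ℕ} {T : Finset ℕ} {β : ℕ} (hβ : β % 2 = 1) (ha : a ∉ T)
    (h : Phi a T β) (h3 : ¬ Phi a T (3 * β)) : DD T β = DD T (3 * β) := by
  by_contra hne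
  have hK := Phi_exit hβ h h3
  rcases DD_change hβ hne with h1 | ⟨s, hs, h1⟩
  · have := KK_uniq hK h1
    omega
  · have := KK_uniq hK h1
    have : a = s := by omega
    subst this
    exact ha hs

/-- the character modulo four -/
def chi4 (β : ℕ) : ℕ := if β % 4 = 3 then 1 else 0

theorem chi4_three {β : ℕ} (hβ : β % 2 = 1) : chi4 (3 * β) + chi4 β = 1 := by
  unfold chi4
  have : β % 4 = 1 ∨ β % 4 = 3 := by omega
  rcases this with h | h
  · have h' : 3 * β % 4 = 3 := by omega
    simp [h, h']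
  · have h' : 3 * β % 4 = 1 := by omega
    simp [h, h']

/-- the correction term at level `j` -/
noncomputable def uu (T T' : Finset ℕ) (j β : ℕ) : ℕ :=
  if j % 2 = 0 then DD T β else if DD T β = DD T (3 * β) then DD T' β else DD T β

/-- the colour at level `j` -/
noncomputable def aa (T T' : Finset ℕ) (j β : ℕ) : ℕ := (j + chi4 β + uu T T' j β) % 2

theorem noTriple_even {T T' : Finset ℕ} {j β : ℕ} (hβ : β % 2 = 1) (hj : j % 2 = 0) :
    ¬ (aa T T' j β = aa T T' j (3 * β) ∧ aa T T' j β = aa T T' (j+1) β) := by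
  rintro ⟨h1, h2⟩
  have hc := chi4_three hβ
  have e0 : (j+1) % 2 ≠ 0 := by omega
  have d1 := DD_lt T β
  have d2 := DD_lt T (3 * β)
  unfold aa uu at h1 h2
  simp only [hj, if_true, e0, if_false] at h1 h2
  by_cases hD : DD T β = DD T (3 * β)
  · rw [hD] at h1; omega
  · rw [if_neg hD] at h2; omega

theorem noTriple_odd {T T' T'' : Finset ℕ} {j β : ℕ} (hβ : β % 2 = 1) (hj : j % 2 = 1)
    (hT : T' = T ∨ ∃ a, a ∉ T ∧ T' = insert a T) :
    ¬ (aa T T' j β = aa T T' j (3 * β) ∧ aa T T' j β = aa T' T'' (j+1) β) := by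
  classical
  rintro ⟨h1, h2⟩
  have hc := chi4_three hβ
  have e0 : (j+1) % 2 = 0 := by omega
  have e1 : j % 2 ≠ 0 := by omega
  have d1 := DD_lt T β
  have d2 := DD_lt T (3 * β)
  have d3 := DD_lt T' β
  have d4 := DD_lt T' (3 * β)
  unfold aa uu at h1 h2
  simp only [e0, if_true, e1, if_false] at h1 h2
  by_cases hD : DD T β = DD T (3 * β)
  · rw [if_pos hD] at h2; omega
  · rw [if_neg hD] at h1 h2
    have hE := DD_E1 (T' := T) hβ hD
    rw [if_pos hE] at h1
    rcases hT with rfl | ⟨a, ha, rfl⟩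
    · omega
    · have i1 := DD_insert hβ ha
      have i2 := DD_insert (odd_mul3 hβ) ha
      by_cases p1 : Phi a T β
      · by_cases p2 : Phi a T (3 * β)
        · rw [if_pos p1] at i1; rw [if_pos p2] at i2; omega
        · exact hD (P1 hβ ha p1 p2)
      · rw [if_neg p1] at i1; omega

/-- MC: the effect of the missing large elements of `T` -/
theorem DD_missing {T V : Finset ℕ} {r : ℕ} (hVT : V ⊆ T)
    (h1 : ∀ s ∈ V, ∀ t ∈ T \ V, s < t ∧ ¬ GG s t r)
    (h2 : ∀ s ∈ T \ V, (∀ t ∈ T, s ≤ t → GG s t r) ∨ (∀ t ∈ T, s ≤ t → ¬ GG s t r))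
    (h3 : ∃ m ∈ T \ V, (∀ t ∈ T, t ≤ m) ∧ GG m m r) :
    DD T r = (DD V r + 1) % 2 := by
  classical
  obtain ⟨m, hm, hmax, hGm⟩ := h3
  have hmT := (mem_sdiff.1 hm).1
  unfold DD
  have hfil : T.filter (fun s => GG s s r ∧ ¬ ∃ t ∈ T, s < t ∧ GG s t r) =
      insert m (V.filter (fun s => GG s s r ∧ ¬ ∃ t ∈ V, s < t ∧ GG s t r)) := by
    ext s
    simp only [mem_filter, mem_insert]
    constructor
    · rintro ⟨hs, hG, hno⟩
      by_cases hsV : s ∈ V
      · right
        exact ⟨hsV, hG, fun ⟨t, ht, h5⟩ => hno ⟨t, hVT ht, h5⟩⟩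
      · left
        rcases h2 s (mem_sdiff.2 ⟨hs, hsV⟩) with h | h
        · by_contra hne
          have hlt : s < m := lt_of_le_of_ne (hmax s hs) hne
          exact hno ⟨m, hmT, hlt, h m hmT hlt.le⟩
        · exact absurd hG (h s hs le_rfl)
    · rintro (rfl | ⟨hs, hG, hno⟩)
      · refine ⟨hmT, hGm, ?_⟩
        rintro ⟨t, ht, hlt, _⟩
        have := hmax t ht
        omega
      · refine ⟨hVT hs, hG, ?_⟩
        rintro ⟨t, ht, hlt, hGt⟩
        by_cases htV : t ∈ V
        · exact hno ⟨t, htV, hlt, hGt⟩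
        · exact (h1 s hs t (mem_sdiff.2 ⟨ht, htV⟩)).2 hGt
  rw [hfil, card_insert_of_notMem]
  · omega
  · intro h
    exact (mem_sdiff.1 hm).2 (mem_filter.1 h).1

end Pool.Agent.Helper81.HT
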