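import Mathlib
import Pool.Agent.Helper81.HT.Parity
import Pool.Agent.Helper81.HT.Core3

/-! The two-colouring for sums of at most three terms. -/

namespace Pool.Agent.Helper81.HT

open Finset

open Classical in
/-- the elements of `T_i` visible to `b` -/
noncomputable def view (f : ℕ → ℕ) (i b : ℕ) : Finset ℕ :=
  (range b).filter (fun s => tt f i s ∧ ¬ OO s b)

open Classical in
/-- the set `T_i`, for a bound `S` -/
noncomputable def TT (f : ℕ → ℕ) (i S : ℕ) : Finset ℕ := (range S).filter (tt f i)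

theorem mem_TT {f : ℕ → ℕ} {i S s : ℕ} (hS : ∀ τ, tt f i τ → τ < S) : s ∈ TT f i S ↔ tt f i s := by
  classical
  unfold TT
  rw [mem_filter, mem_range]
  exact ⟨fun h => h.2, fun h => ⟨hS s h, h⟩⟩

theorem mem_view {f : ℕ → ℕ} {i b s : ℕ} : s ∈ view f i b ↔ tt f i s ∧ ¬ OO s b := by
  classical
  unfold view
  rw [mem_filter, mem_range]
  refine ⟨fun h => h.2, fun h => ⟨?_, h⟩⟩
  have h1 := not_OO_ge h.2
  have h2 := lt_two_rho s
  omega

theorem view_full {f : ℕ → ℕ} {i b S : ℕ} (hS : ∀ τ, tt f i τ → τ < S) (hb : b % 2 = 1)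
    (hbS : MM S ≤ b) : view f i b = TT f i S := by
  ext s
  rw [mem_view, mem_TT hS]
  refine ⟨fun h => h.1, fun h => ⟨h, fun hO => ?_⟩⟩
  have h1 := OO_bound hb hO
  have h2 := MM_le (hS s h).le
  omega

theorem MM_32_dvd (t : ℕ) : 2^(4+1) ∣ MM t := by
  unfold MM
  apply pow_dvd_pow
  have := rho_ge (t+1)
  omega

theorem mod_congr_mul {β β' c M : ℕ} (h : β % M = β' % M) : (c * β) % M = (c * β') % M := by
  rw [Nat.mul_mod, h, ← Nat.mul_mod]

theorem mod_congr_dvd {β β' d M : ℕ} (hd : d ∣ M) (h : β % M = β' % M) : β % d = β' % d := by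
  rw [← Nat.mod_mod_of_dvd β hd, h, Nat.mod_mod_of_dvd _ hd]

theorem GG_congr {s t β β' : ℕ} (h : β % MM t = β' % MM t) : GG s t β ↔ GG s t β' := by
  unfold GG
  rw [h]
  refine or_congr_right ?_
  refine exists_congr fun k => and_congr_right fun _ => ?_
  unfold NN
  rw [mod_congr_mul h]
  refine and_congr_right fun _ => ?_
  refine forall_congr' fun m => forall_congr' fun _ => not_congr ?_
  exact KK_congr (mod_congr_mul (mod_congr_dvd (MM_32_dvd t) h))

theorem DD_periodic {T : Finset ℕ} {S β β' : ℕ} (hT : ∀ s ∈ T, s < S)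
    (h : β % MM S = β' % MM S) : DD T β = DD T β' := by
  apply DD_congr
  intro s _ t ht _
  exact GG_congr (mod_congr_dvd (MM_dvd (hT t ht).le) h)

theorem aa_periodic {T T' : Finset ℕ} {S j β β' : ℕ} (hT : ∀ s ∈ T, s < S)
    (hT' : ∀ s ∈ T', s < S) (h : β % MM S = β' % MM S) : aa T T' j β = aa T T' j β' := by
  have h3 : (3 * β) % MM S = (3 * β') % MM S := mod_congr_mul h
  have h4 : β % 4 = β' % 4 := by
    refine mod_congr_dvd ?_ h
    exact dvd_trans ⟨8, by norm_num⟩ (MM_32_dvd S)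
  unfold aa uu chi4
  rw [DD_periodic hT h, DD_periodic hT h3, DD_periodic hT' h, h4]

theorem TT_lt {f : ℕ → ℕ} {i S s : ℕ} (h : s ∈ TT f i S) : s < S := by
  classical
  unfold TT at h
  exact mem_range.1 (mem_filter.1 h).1

theorem TT_step {f : ℕ → ℕ} {i S : ℕ} (hS : ∀ τ, tt f (i+1) τ → τ < S) :
    TT f (i+1) S = TT f i S ∨ ∃ a, a ∉ TT f i S ∧ TT f (i+1) S = insert a (TT f i S) := by
  classical
  have hSi : ∀ τ, tt f i τ → τ < S := fun τ h => hS τ (tt_mono (Nat.le_succ i) h)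
  by_cases h : ∃ a, tt f (i+1) a ∧ ¬ tt f i a
  · right
    obtain ⟨a, h1, h2⟩ := h
    refine ⟨a, fun h => h2 ((mem_TT hSi).1 h), ?_⟩
    ext s
    rw [mem_insert, mem_TT hS, mem_TT hSi]
    constructor
    · intro h3
      by_cases h4 : tt f i s
      · right; exact h4
      · left; exact tt_uniq h3 h1 h4 h2
    · rintro (rfl | h3)
      · exact h1
      · exact tt_mono (Nat.le_succ i) h3
  · left
    push Not at h
    ext s
    rw [mem_TT hS, mem_TT hSi]
    exact ⟨h s, tt_mono (Nat.le_succ i)⟩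

/-- own and far values differ when a stage is invisible -/
theorem missing {f : ℕ → ℕ} {i S b r : ℕ} (hS : ∀ τ, tt f i τ → τ < S) (hb : b % 2 = 1)
    (hr : r = b ∨ r = 3 * b) (hex : ∃ s, tt f i s ∧ OO s r) :
    DD (TT f i S) r = (DD (view f i b) r + 1) % 2 := by
  classical
  have hrodd : r % 2 = 1 := by rcases hr with rfl | rfl <;> omega
  have hrb : b ≤ r := by rcases hr with rfl | rfl <;> omega
  have hr3 : r ≤ 3 * b := by rcases hr with rfl | rfl <;> omega
  have hdiv : ∀ s, OO s r → OO s b := by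
    intro s h
    rcases hr with rfl | rfl
    · exact h
    · exact OO_div h
  have hV : view f i b ⊆ TT f i S := by
    intro s hs
    rw [mem_TT hS]
    exact (mem_view.1 hs).1
  have hdiff : ∀ s, s ∈ TT f i S \ view f i b ↔ tt f i s ∧ OO s b := by
    intro s
    rw [mem_sdiff, mem_TT hS, mem_view]
    tauto
  -- no wrap-around
  have hwrap : ∀ t k, OO t b → k < 4 → (3^k * r) % MM t = 3^k * r := by
    intro t k hO hk
    apply Nat.mod_eq_of_lt
    have h1 := OO_bound hb hO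
    have h2 : 3^k ≤ 27 := by
      calc 3^k ≤ 3^3 := Nat.pow_le_pow_right (by norm_num) (by omega)
        _ = 27 := by norm_num
    calc 3^k * r ≤ 27 * r := Nat.mul_le_mul_right _ h2
      _ < MM t := by omega
  have hnoN : ∀ s t k, OO t b → k < 4 → 2^(rho s) ≤ r → ¬ NN s t (3^k * r) := by
    intro s t k hO hk hge hN
    unfold NN at hN
    rw [hwrap t k hO hk] at hN
    have : r ≤ 3^k * r := Nat.le_mul_of_pos_left _ (by positivity)
    omega
  have hr0 : ∀ t, OO t b → r % MM t = r := by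
    intro t hO
    have := hwrap t 0 hO (by omega)
    simpa using this
  apply DD_missing hV
  · intro s hs t ht
    obtain ⟨h1, h2⟩ := mem_view.1 hs
    obtain ⟨h3, h4⟩ := (hdiff t).1 ht
    refine ⟨?_, ?_⟩
    · by_contra hc
      rcases lt_or_eq_of_le (not_lt.1 hc) with h5 | h5
      · exact h2 (OO_mono hb h4 h5)
      · subst h5; exact h2 h4
    · rintro (hO | ⟨k, hk, hN, _⟩)
      · rw [hr0 t h4] at hO
        exact h2 (hdiv s hO)
      · have := not_OO_ge h2
        exact hnoN s t k h4 hk (by omega) hN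
  · intro s hs
    obtain ⟨h3, h4⟩ := (hdiff s).1 hs
    have hOt : ∀ t, s ≤ t → OO t b := by
      intro t hst
      rcases lt_or_eq_of_le hst with h5 | h5
      · exact OO_mono hb h4 h5
      · rw [← h5]; exact h4
    by_cases hOr : OO s r
    · left
      intro t _ hst
      left
      rw [hr0 t (hOt t hst)]
      exact hOr
    · right
      intro t _ hst
      rintro (hO | ⟨k, hk, hN, _⟩)
      · rw [hr0 t (hOt t hst)] at hO
        exact hOr hO
      · exact hnoN s t k (hOt t hst) hk (not_OO_ge hOr) hN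
  · obtain ⟨s, hs, hO⟩ := hex
    have hne : (TT f i S).Nonempty := ⟨s, (mem_TT hS).2 hs⟩
    have hmax := (TT f i S).le_max' s ((mem_TT hS).2 hs)
    have hmem := (TT f i S).max'_mem hne
    have hOm : OO ((TT f i S).max' hne) r := by
      rcases lt_or_eq_of_le hmax with h5 | h5
      · exact OO_mono hrodd hO h5
      · rw [← h5]; exact hO
    refine ⟨(TT f i S).max' hne, (hdiff _).2 ⟨(mem_TT hS).1 hmem, hdiv _ hOm⟩, ?_, ?_⟩
    · intro t ht
      exact le_max' _ _ ht
    · left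
      rw [hr0 _ (hdiv _ hOm)]
      exact hOm

/-- the colouring -/
noncomputable def C2 (f : ℕ → ℕ) (n : ℕ) : Fin 2 :=
  ⟨aa (view f (vv n / 2) (od n)) (view f (vv n / 2 + 1) (od n)) (vv n) (od n),
    Nat.mod_lt _ (by norm_num)⟩

theorem C2_val {f : ℕ → ℕ} {n j b : ℕ} (hb : b % 2 = 1) (hn : n = 2^j * b) :
    (C2 f n : ℕ) = aa (view f (j / 2) b) (view f (j / 2 + 1) b) j b := by
  unfold C2
  simp only [vv_eq hb hn, od_eq hb hn]

/-- three distinct elements of X -/
theorem mono_triple {k n : ℕ} {c : ℕ → Fin k} {X : Set ℕ} (hn : 3 ≤ n) (h : Mono c (FSle n X))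
    {x y z : ℕ} (hx : x ∈ X) (hy : y ∈ X) (hz : z ∈ X) (hxy : x ≠ y) (hxz : x ≠ z) (hyz : y ≠ z) :
    c x = c (x + y + z) := by
  have hcard : ({x, y, z} : Finset ℕ).card = 3 := card_eq_three.2 ⟨x, y, z, hxy, hxz, hyz, rfl⟩
  refine h x ?_ (x+y+z) ?_
  · exact ⟨{x}, by simpa using hx, by simp, by simp; omega, by simp⟩
  · refine ⟨{x, y, z}, ?_, ?_, ?_, ?_⟩
    · intro w hw
      simp only [coe_insert, coe_singleton, Set.mem_insert_iff, Set.mem_singleton_iff] at hw
      rcases hw with rfl | rfl | rfl <;> assumption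
    · rw [hcard]; norm_num
    · rw [hcard]; exact hn
    · rw [sum_insert (by simp [hxy, hxz]), sum_pair hyz]; ring

/-- pigeonhole for three elements -/
theorem exists_congr_triple {Y : Set ℕ} (hY : Y.Infinite) (M : ℕ) (hM : 0 < M) :
    ∃ x ∈ Y, ∃ y ∈ Y, ∃ z ∈ Y, x < y ∧ y < z ∧ x % M = y % M ∧ x % M = z % M := by
  have : ∃ r ∈ Set.Iio M, {x ∈ Y | x % M = r}.Infinite := by
    by_contra hc
    push Not at hc
    apply hY
    have hsub : Y ⊆ ⋃ r ∈ Set.Iio M, {x ∈ Y | x % M = r} := by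
      intro x hx
      simp only [Set.mem_iUnion]
      exact ⟨x % M, Nat.mod_lt _ hM, hx, rfl⟩
    refine Set.Finite.subset ?_ hsub
    refine Set.Finite.biUnion (Set.finite_Iio M) ?_
    intro r hr
    exact hc r hr
  obtain ⟨r, _, hinf⟩ := this
  obtain ⟨x, hx, _⟩ := hinf.exists_gt 0
  obtain ⟨y, hy, hxy⟩ := hinf.exists_gt x
  obtain ⟨z, hz, hyz⟩ := hinf.exists_gt y
  exact ⟨x, hx.1, y, hy.1, z, hz.1, hxy, hyz, by rw [hx.2, hy.2], by rw [hx.2, hz.2]⟩

theorem lev_finite2 {f : ℕ → ℕ} {X : Set ℕ} (h : Mono (C2 f) (FSle 3 X)) (j : ℕ) :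
    {x ∈ X | 0 < x ∧ vv x = j}.Finite := by
  by_contra hinf
  set i := j / 2 with hi
  obtain ⟨S, hS2⟩ := tt_bdd f (i+2)
  have hS1 : ∀ τ, tt f (i+1) τ → τ < S := fun τ hτ => hS2 τ (tt_mono (Nat.le_succ _) hτ)
  have hS0 : ∀ τ, tt f i τ → τ < S := fun τ hτ => hS1 τ (tt_mono (Nat.le_succ _) hτ)
  have hMpos := MM_pos S
  have hinf2 : ({x ∈ X | 0 < x ∧ vv x = j} \ Set.Iio (2^j * MM S)).Infinite :=
    (Set.Infinite.sdiff hinf (Set.finite_Iio _))
  obtain ⟨x, ⟨⟨hxX, hx0, hxk⟩, hxL⟩, y, ⟨⟨hyX, hy0, hyk⟩, hyL⟩, z, ⟨⟨hzX, hz0, hzk⟩, hzL⟩,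
    hxy, hyz, hmod1, hmod2⟩ := exists_congr_triple hinf2 (2^j * (2 * MM S)) (by positivity)
  obtain ⟨hx1, hx2⟩ := od_spec hx0
  rw [hxk] at hx1
  set b := od x with hb
  obtain ⟨d, hd⟩ : 2^j * (2 * MM S) ∣ y - x := (Nat.modEq_iff_dvd' hxy.le).1 hmod1
  obtain ⟨e, he⟩ : 2^j * (2 * MM S) ∣ z - x := (Nat.modEq_iff_dvd' (by omega)).1 hmod2
  have hyx : y = x + 2^j * (2 * MM S) * d := by omega
  have hzx : z = x + 2^j * (2 * MM S) * e := by omega
  have hsum2 : x + y = 2^(j+1) * (b + MM S * d) := by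
    rw [hyx, hx1]; ring
  have hsum3 : x + y + z = 2^j * (3 * b + 2 * MM S * (d + e)) := by
    rw [hyx, hzx, hx1]; ring
  obtain ⟨m, hm⟩ := MM_even S
  have hodd2 : (b + MM S * d) % 2 = 1 := by
    have : MM S * d = 2 * (m * d) := by rw [hm]; ring
    rw [this]; omega
  have hodd3 : (3 * b + 2 * MM S * (d + e)) % 2 = 1 := by
    have : 2 * MM S * (d + e) = 2 * (MM S * (d + e)) := by ring
    rw [this]; omega
  have hbL : MM S ≤ b := by
    have h3 : 2^j * MM S ≤ x := by simpa using hxL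
    rw [hx1] at h3
    exact Nat.le_of_mul_le_mul_left h3 (by positivity)
  have hL2 : MM S ≤ b + MM S * d := by omega
  have hL3 : MM S ≤ 3 * b + 2 * MM S * (d + e) := by omega
  have hm2 : (b + MM S * d) % MM S = b % MM S := Nat.add_mul_mod_self_left _ _ _
  have hm3 : (3 * b + 2 * MM S * (d + e)) % MM S = (3 * b) % MM S := by
    have : 2 * MM S * (d + e) = MM S * (2 * (d + e)) := by ring
    rw [this]; exact Nat.add_mul_mod_self_left _ _ _
  -- colours
  have c1 := C2_val (f := f) hx2 hx1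
  have c2 := C2_val (f := f) hodd2 hsum2
  have c3 := C2_val (f := f) hodd3 hsum3
  rw [← hi, view_full hS0 hx2 hbL, view_full hS1 hx2 hbL] at c1
  rw [← hi, view_full hS0 hodd3 hL3, view_full hS1 hodd3 hL3,
    aa_periodic (fun s hs => TT_lt hs) (fun s hs => TT_lt hs) hm3] at c3
  have e12 := mono_pair (by norm_num) h hxX hyX (by omega)
  have e13 := mono_triple le_rfl h hxX hyX hzX (by omega) (by omega) (by omega)
  rw [Fin.ext_iff] at e12 e13
  rw [c1, c2] at e12
  rw [c1, c3] at e13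
  rcases Nat.mod_two_eq_zero_or_one j with hj | hj
  · have hi' : (j+1) / 2 = i := by omega
    rw [hi', view_full hS0 hodd2 hL2, view_full hS1 hodd2 hL2,
      aa_periodic (fun s hs => TT_lt hs) (fun s hs => TT_lt hs) hm2] at e12
    exact noTriple_even hx2 hj ⟨e13, e12⟩
  · have hi' : (j+1) / 2 = i + 1 := by omega
    rw [hi', view_full hS1 hodd2 hL2, view_full hS2 hodd2 hL2,
      aa_periodic (fun s hs => TT_lt hs) (fun s hs => TT_lt hs) hm2] at e12
    exact noTriple_odd hx2 hj (TT_step hS1) ⟨e13, e12⟩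

theorem exists_high_gen {X : Set ℕ} (hX : X.Infinite)
    (h : ∀ j, {x ∈ X | 0 < x ∧ vv x = j}.Finite) (k : ℕ) : ∃ x ∈ X, 0 < x ∧ 2^k ∣ x := by
  by_contra hcon
  push Not at hcon
  apply hX
  have : X ⊆ {0} ∪ ⋃ j ∈ range k, {x ∈ X | 0 < x ∧ vv x = j} := by
    intro x hx
    rcases Nat.eq_zero_or_pos x with h0 | h0
    · left; exact h0
    · right
      simp only [Set.mem_iUnion, mem_range]
      refine ⟨vv x, ?_, hx, h0, rfl⟩
      by_contra hlt
      exact hcon x hx h0 ((le_vv h0).1 (by omega))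
  refine Set.Finite.subset ?_ this
  refine Set.Finite.union (Set.finite_singleton 0) ?_
  refine Set.Finite.biUnion (range k).finite_toSet ?_
  intro j _
  exact h j

theorem decode2 {f : ℕ → ℕ} {X : Set ℕ} (hX : X.Infinite) (h : Mono (C2 f) (FSle 3 X))
    {x : ℕ} (hx : x ∈ X) (h0 : 0 < x) {τ : ℕ} (hτ : tt f (vv x / 2) τ) : τ < 3 * x := by
  by_contra hc
  obtain ⟨hx1, hx2⟩ := od_spec h0
  set j := vv x with hj
  set b := od x with hb
  set i := j / 2 with hi
  obtain ⟨S, hS1⟩ := tt_bdd f (i+1)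
  have hS0 : ∀ τ, tt f i τ → τ < S := fun τ hτ => hS1 τ (tt_mono (Nat.le_succ _) hτ)
  have hbx : b ≤ x := by rw [hx1]; exact Nat.le_mul_of_pos_left _ (by positivity)
  -- a far element
  obtain ⟨y, hyX, hy0, z, hz⟩ := exists_high_gen hX (lev_finite2 h) (j + (rho (S+1) + b))
  have hz0 : 0 < z := by
    rcases Nat.eq_zero_or_pos z with hz0 | hz0
    · rw [hz0] at hz; omega
    · exact hz0
  have hyy : y = 2^j * (MM S * (2^b * z)) := by
    rw [hz, pow_add, pow_add]; unfold MM; ring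
  have h2b : b < 2^b := Nat.lt_two_pow_self
  have hbig : MM S ≤ MM S * (2^b * z) := Nat.le_mul_of_pos_right _ (by positivity)
  have hbig2 : b < MM S * (2^b * z) := by
    calc b < 2^b := h2b
      _ ≤ 2^b * z := Nat.le_mul_of_pos_right _ hz0
      _ ≤ MM S * (2^b * z) := Nat.le_mul_of_pos_left _ (MM_pos S)
  have hxy : x ≠ y := by
    intro he
    rw [hx1, hyy] at he
    have := Nat.eq_of_mul_eq_mul_left (by positivity) he
    omega
  have hsum : x + y = 2^j * (b + MM S * (2^b * z)) := by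
    rw [hyy, mul_add, ← hx1]
  obtain ⟨m, hm⟩ := MM_even S
  have hodd : (b + MM S * (2^b * z)) % 2 = 1 := by
    have : MM S * (2^b * z) = 2 * (m * (2^b * z)) := by rw [hm]; ring
    rw [this]; omega
  have hL : MM S ≤ b + MM S * (2^b * z) := by omega
  have hmod : (b + MM S * (2^b * z)) % MM S = b % MM S := Nat.add_mul_mod_self_left _ _ _
  have c1 := C2_val (f := f) hx2 hx1
  have c2 := C2_val (f := f) hodd hsum
  rw [← hi] at c1
  rw [← hi, view_full hS0 hodd hL, view_full hS1 hodd hL,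
    aa_periodic (fun s hs => TT_lt hs) (fun s hs => TT_lt hs) hmod] at c2
  have e12 := mono_pair (by norm_num) h hx hyX hxy
  rw [Fin.ext_iff, c1, c2] at e12
  -- the invisible stage
  have hO3 : OO τ (3 * b) := by
    apply OO_small
    have := lt_two_rho τ
    omega
  have hO1 : OO τ b := OO_div hO3
  have hτ1 : tt f (i+1) τ := tt_mono (Nat.le_succ _) hτ
  have m1 := missing hS0 hx2 (Or.inl rfl) ⟨τ, hτ, hO1⟩
  have m2 := missing hS0 hx2 (Or.inr rfl) ⟨τ, hτ, hO3⟩
  have m3 := missing hS1 hx2 (Or.inl rfl) ⟨τ, hτ1, hO1⟩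
  have d1 := DD_lt (view f i b) b
  have d2 := DD_lt (view f i b) (3 * b)
  have d3 := DD_lt (view f (i+1) b) b
  unfold aa uu at e12
  split_ifs at e12 <;> omega

/-! computability -/

section primrec

variable {α : Type*} [Primcodable α]

theorem pr_KK {m β : α → ℕ} (hm : Primrec m) (hβ : Primrec β) :
    PrimrecPred (fun a => KK (m a) (β a)) := by
  unfold KK
  refine Primrec.eq.comp (Primrec.nat_mod.comp (Primrec.nat_mul.comp hβ hβ)
    (pr_pow (Primrec.const 2) (Primrec.succ.comp hm)))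
    (Primrec.succ.comp (pr_pow (Primrec.const 2) hm))

theorem pr_rho {s : α → ℕ} (hs : Primrec s) : Primrec (fun a => 2^(rho (s a))) := by
  unfold rho
  exact pr_pow (Primrec.const 2) (pr_pow (Primrec.const 2)
    (Primrec.nat_add.comp hs (Primrec.const 6)))

theorem pr_MM {s : α → ℕ} (hs : Primrec s) : Primrec (fun a => MM (s a)) := by
  unfold MM
  exact pr_rho (Primrec.succ.comp hs)

theorem OO_iff (s r : ℕ) : OO s r ↔ ∃ k < r+1, ∃ γ < r+1,
    (γ < 2^(rho s) ∧ r = 3^k * γ) ∧ ∀ j < k, ¬ KK (s+5) (3^j * γ) := by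
  constructor
  · rintro ⟨k, γ, h1, h2, h3⟩
    have hγ : γ ≤ r := by rw [h2]; exact Nat.le_mul_of_pos_left _ (by positivity)
    rcases Nat.eq_zero_or_pos r with h0 | h0
    · subst h0
      refine ⟨0, by omega, 0, by omega, ⟨by positivity, by simp⟩, by intro j hj; omega⟩
    · have hγ0 : 0 < γ := by
        rcases Nat.eq_zero_or_pos γ with h4 | h4
        · rw [h4] at h2; omega
        · exact h4
      have h5 : 3^k ≤ r := by rw [h2]; exact Nat.le_mul_of_pos_right _ hγ0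
      have h6 : k < 3^k := Nat.lt_pow_self (by norm_num)
      exact ⟨k, by omega, γ, by omega, ⟨h1, h2⟩, h3⟩
  · rintro ⟨k, _, γ, _, ⟨h1, h2⟩, h3⟩
    exact ⟨k, γ, h1, h2, h3⟩

theorem pr_OO {s r : α → ℕ} (hs : Primrec s) (hr : Primrec r) :
    PrimrecPred (fun a => OO (s a) (r a)) := by
  simp only [OO_iff]
  refine pr_exists (f := fun a => r a + 1)
    (p := fun a k => ∃ γ < r a + 1, (γ < 2^(rho (s a)) ∧ r a = 3^k * γ) ∧
      ∀ j < k, ¬ KK (s a + 5) (3^j * γ)) (Primrec.succ.comp hr) ?_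
  refine pr_exists (α := α × ℕ) (f := fun a => r a.1 + 1)
    (p := fun a γ => (γ < 2^(rho (s a.1)) ∧ r a.1 = 3^a.2 * γ) ∧
      ∀ j < a.2, ¬ KK (s a.1 + 5) (3^j * γ)) (Primrec.succ.comp (hr.comp Primrec.fst)) ?_
  have h1 : PrimrecPred (fun a : (α × ℕ) × ℕ =>
      (a.2 < 2^(rho (s a.1.1)) ∧ r a.1.1 = 3^a.1.2 * a.2)) := by
    refine PrimrecPred.and ?_ ?_
    · exact Primrec.nat_lt.comp Primrec.snd (pr_rho (hs.comp (Primrec.fst.comp Primrec.fst)))
    · exact Primrec.eq.comp (hr.comp (Primrec.fst.comp Primrec.fst))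
        (Primrec.nat_mul.comp (pr_pow (Primrec.const 3) (Primrec.snd.comp Primrec.fst))
          Primrec.snd)
  have h2 : PrimrecPred (fun a : (α × ℕ) × ℕ =>
      ∀ j < a.1.2, ¬ KK (s a.1.1 + 5) (3^j * a.2)) := by
    refine pr_forall (α := (α × ℕ) × ℕ) (f := fun a => a.1.2)
      (p := fun a j => ¬ KK (s a.1.1 + 5) (3^j * a.2)) (Primrec.snd.comp Primrec.fst) ?_
    refine PrimrecPred.not ?_
    refine pr_KK ?_ ?_
    · exact Primrec.nat_add.comp
        (hs.comp (Primrec.fst.comp (Primrec.fst.comp Primrec.fst))) (Primrec.const 5)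
    · exact Primrec.nat_mul.comp (pr_pow (Primrec.const 3) Primrec.snd)
        (Primrec.snd.comp Primrec.fst)
  exact h1.and h2

theorem pr_GG {s t β : α → ℕ} (hs : Primrec s) (ht : Primrec t) (hβ : Primrec β) :
    PrimrecPred (fun a => GG (s a) (t a) (β a)) := by
  unfold GG NN
  refine PrimrecPred.or (pr_OO hs (Primrec.nat_mod.comp hβ (pr_MM ht))) ?_
  refine pr_exists (f := fun _ => 4)
    (p := fun a k => 3^k * β a % MM (t a) < 2^(rho (s a)) ∧ ∀ m < k, ¬ KK 4 (3^m * β a))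
    (Primrec.const 4) ?_
  have h1 : PrimrecPred (fun a : α × ℕ => 3^a.2 * β a.1 % MM (t a.1) < 2^(rho (s a.1))) :=
    Primrec.nat_lt.comp (Primrec.nat_mod.comp (Primrec.nat_mul.comp
      (pr_pow (Primrec.const 3) Primrec.snd) (hβ.comp Primrec.fst)) (pr_MM (ht.comp Primrec.fst)))
      (pr_rho (hs.comp Primrec.fst))
  have h2 : PrimrecPred (fun a : α × ℕ => ∀ m < a.2, ¬ KK 4 (3^m * β a.1)) := by
    refine pr_forall (α := α × ℕ) (f := fun a => a.2)
      (p := fun a m => ¬ KK 4 (3^m * β a.1)) Primrec.snd ?_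
    refine PrimrecPred.not (pr_KK (Primrec.const 4) ?_)
    exact Primrec.nat_mul.comp (pr_pow (Primrec.const 3) Primrec.snd)
      (hβ.comp (Primrec.fst.comp Primrec.fst))
  exact h1.and h2

/-- membership in the visible part, from a list of values -/
def VL (L : List ℕ) (i b s : ℕ) : Prop := ttL L i s ∧ ¬ OO s b

open Classical in
/-- list version of the parity function of the visible part -/
noncomputable def DL (L : List ℕ) (i b β : ℕ) : ℕ :=
  ((range b).filter (fun s => VL L i b s ∧ GG s s β ∧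
    ¬ ∃ t < b, VL L i b t ∧ s < t ∧ GG s t β)).card % 2

theorem DD_eq_DL {f : ℕ → ℕ} {m i b β : ℕ} (hb : b ≤ m) :
    DD (view f i b) β = DL ((List.range (m+1)).map f) i b β := by
  classical
  have hmem : ∀ s, s < b → (s ∈ view f i b ↔ VL ((List.range (m+1)).map f) i b s) := by
    intro s hs
    rw [mem_view]
    unfold VL
    rw [ttL_iff (by omega)]
  have hlt : ∀ s, s ∈ view f i b → s < b := by
    intro s hs
    unfold view at hs
    exact mem_range.1 (mem_filter.1 hs).1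
  unfold DD DL
  congr 2
  ext s
  simp only [mem_filter, mem_range]
  constructor
  · rintro ⟨h1, h2, h3⟩
    refine ⟨hlt s h1, (hmem s (hlt s h1)).1 h1, h2, ?_⟩
    rintro ⟨t, ht, h4, h5⟩
    exact h3 ⟨t, (hmem t ht).2 h4, h5⟩
  · rintro ⟨h0, h1, h2, h3⟩
    refine ⟨(hmem s h0).2 h1, h2, ?_⟩
    rintro ⟨t, ht, h5⟩
    exact h3 ⟨t, hlt t ht, (hmem t (hlt t ht)).1 ht, h5⟩

theorem pr_VL {L : α → List ℕ} {i b s : α → ℕ} (hL : Primrec L) (hi : Primrec i)
    (hb : Primrec b) (hs : Primrec s) : PrimrecPred (fun a => VL (L a) (i a) (b a) (s a)) :=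
  (pr_ttL hL hi hs).and (pr_OO hs hb).not

theorem pr_DL {L : α → List ℕ} {i b β : α → ℕ} (hL : Primrec L) (hi : Primrec i)
    (hb : Primrec b) (hβ : Primrec β) : Primrec (fun a => DL (L a) (i a) (b a) (β a)) := by
  classical
  unfold DL
  refine Primrec.nat_mod.comp ?_ (Primrec.const 2)
  suffices hrel : PrimrecRel (fun (a : α) (s : ℕ) => VL (L a) (i a) (b a) s ∧ GG s s (β a) ∧
      ¬ ∃ t < b a, VL (L a) (i a) (b a) t ∧ s < t ∧ GG s t (β a)) by
    refine (pr_count hb hrel).of_eq ?_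
    intro a
    congr!
  have h1 : PrimrecPred (fun a : α × ℕ => VL (L a.1) (i a.1) (b a.1) a.2) :=
    pr_VL (hL.comp Primrec.fst) (hi.comp Primrec.fst) (hb.comp Primrec.fst) Primrec.snd
  have h2 : PrimrecPred (fun a : α × ℕ => GG a.2 a.2 (β a.1)) :=
    pr_GG Primrec.snd Primrec.snd (hβ.comp Primrec.fst)
  have h3 : PrimrecPred (fun a : α × ℕ =>
      ∃ t < b a.1, VL (L a.1) (i a.1) (b a.1) t ∧ a.2 < t ∧ GG a.2 t (β a.1)) := by
    refine pr_exists (α := α × ℕ) (f := fun a => b a.1)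
      (p := fun a t => VL (L a.1) (i a.1) (b a.1) t ∧ a.2 < t ∧ GG a.2 t (β a.1))
      (hb.comp Primrec.fst) ?_
    have hff : Primrec (fun a : (α × ℕ) × ℕ => a.1.1) := Primrec.fst.comp Primrec.fst
    have hfs : Primrec (fun a : (α × ℕ) × ℕ => a.1.2) := Primrec.snd.comp Primrec.fst
    have g1 : PrimrecPred (fun a : (α × ℕ) × ℕ => VL (L a.1.1) (i a.1.1) (b a.1.1) a.2) :=
      pr_VL (hL.comp hff) (hi.comp hff) (hb.comp hff) Primrec.snd
    have g2 : PrimrecPred (fun a : (α × ℕ) × ℕ => a.1.2 < a.2) :=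
      Primrec.nat_lt.comp hfs Primrec.snd
    have g3 : PrimrecPred (fun a : (α × ℕ) × ℕ => GG a.1.2 a.2 (β a.1.1)) :=
      pr_GG hfs Primrec.snd (hβ.comp hff)
    exact g1.and (g2.and g3)
  exact h1.and (h2.and h3.not)

end primrec

/-- list version of the colour -/
noncomputable def colL (L : List ℕ) (n : ℕ) : ℕ :=
  (vv n + chi4 (od n) + if vv n % 2 = 0 then DL L (vv n / 2) (od n) (od n) else
    if DL L (vv n / 2) (od n) (od n) = DL L (vv n / 2) (od n) (3 * od n) then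
      DL L (vv n / 2 + 1) (od n) (od n) else DL L (vv n / 2) (od n) (od n)) % 2

/-- list version of the colouring -/
noncomputable def C2L (L : List ℕ) (n : ℕ) : Fin 2 := ⟨colL L n, Nat.mod_lt _ (by norm_num)⟩

theorem C2_eq (f : ℕ → ℕ) (m : ℕ) : C2 f m = C2L ((List.range (m+1)).map f) m := by
  apply Fin.ext
  show aa _ _ _ _ = colL _ _
  unfold aa uu colL
  rw [DD_eq_DL (od_le m), DD_eq_DL (od_le m), DD_eq_DL (od_le m)]

theorem pr_colL : Primrec₂ colL := by
  classical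
  unfold colL
  have hv : Primrec (fun q : List ℕ × ℕ => vv q.2) := pr_vv.comp Primrec.snd
  have ho : Primrec (fun q : List ℕ × ℕ => od q.2) := pr_od.comp Primrec.snd
  have hi : Primrec (fun q : List ℕ × ℕ => vv q.2 / 2) :=
    Primrec.nat_div.comp hv (Primrec.const 2)
  have hi1 : Primrec (fun q : List ℕ × ℕ => vv q.2 / 2 + 1) := Primrec.succ.comp hi
  have ho3 : Primrec (fun q : List ℕ × ℕ => 3 * od q.2) :=
    Primrec.nat_mul.comp (Primrec.const 3) ho
  have hchi : Primrec (fun q : List ℕ × ℕ => chi4 (od q.2)) := by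
    unfold chi4
    refine Primrec.ite ?_ (Primrec.const 1) (Primrec.const 0)
    exact Primrec.eq.comp (Primrec.nat_mod.comp ho (Primrec.const 4)) (Primrec.const 3)
  refine Primrec.nat_mod.comp (Primrec.nat_add.comp (Primrec.nat_add.comp hv hchi) ?_)
    (Primrec.const 2)
  refine Primrec.ite ?_ (pr_DL Primrec.fst hi ho ho) ?_
  · exact Primrec.eq.comp (Primrec.nat_mod.comp hv (Primrec.const 2)) (Primrec.const 0)
  · refine Primrec.ite ?_ (pr_DL Primrec.fst hi1 ho ho) (pr_DL Primrec.fst hi ho ho)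
    exact Primrec.eq.comp (pr_DL Primrec.fst hi ho ho) (pr_DL Primrec.fst hi ho ho3)

theorem pr_C2L : Primrec₂ C2L := by
  have h1 : Primrec (fun q : List ℕ × ℕ => ((C2L q.1 q.2 : Fin 2) : ℕ)) := pr_colL
  exact Primrec.fin_val_iff.1 h1

theorem main2 (A : Set ℕ) :
    ∃ c : ℕ → Fin 2, ComputableIn {chi A} c ∧
      ∀ X : Set ℕ, X.Infinite → Mono c (FSle 3 X) →
        ∀ g : ℕ →. ℕ, RecursiveIn {chi A} g →
          RecursiveIn {chi A, chi X} (chi {n | (g n).Dom}) := by
  refine reduction C2 C2L pr_C2L C2_eq ?_ ?_ A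
  · intro f X hX h e
    exact exists_high_gen hX (lev_finite2 h) (2*e+2)
  · intro f X hX h e x hx h0 hd s hs
    obtain ⟨s', hs', hfirst⟩ := tt_find hs
    refine ⟨s', ?_, hs'⟩
    have hk : 2*e+2 ≤ vv x := (le_vv h0).2 hd
    exact decode2 hX h hx h0 (τ := s') ⟨by omega, hfirst⟩

end Pool.Agent.Helper81.HT
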